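import Pool.Agent.LibSt31.E4
import Pool.Agent.LibST82.G4
import Pool.Agent.LibST82.G1

/-!
LibSt31/E5: `evalF` of Ifc.lean (MP_8b67e9, blocks III and IV).
-/

set_option autoImplicit false

noncomputable section

namespace St16

open St16B3 IsLocalRing

theorem evalF {A L : Type} [CommRing A] [IsDomain A] [IsDiscreteValuationRing A] [Field L] [CharZero L]
    [Algebra A L] [IsFractionRing A L] (Q : Place L A) (m : ℕ) (hm : Odd m) (a b : TT)
    (hab : ∀ j k : ℤ, a ^ j * b ^ k = 1 → j = 0 ∧ k = 0) (y : BT sysU) (hy : y ∈ BTN sysU m (2 * m - 1))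
    (hD : BD y ∈ DegB sysU) (hz : detH.bt y - zcl a b m ∈ DegB sysA) :
    ∃ F : BT (sysL L Q.π Q.irr) →ₗ[ℚ] ℚ, (∀ w ∈ DegB (sysL L Q.π Q.irr), F w = 0) ∧
      (∀ w ∈ BTN (sysL L Q.π Q.irr) (2 * m) (2 * m + 1), F (BD w) = 0) ∧ F (Xh Q y) ≠ 0 := by
  obtain ⟨al, be, haa, hab', hba, hbb⟩ := exists_al_be Q a b hab
  exact ⟨FF (latFam L Q.π Q.irr al be) m, fun w hw => FF_deg _ m w hw, fun w _ => FF_BD _ m w,
    ST31.FF_Xh_ne Q m hm a b al be haa hab' hba hbb y hy hz⟩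

end St16
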