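import Pool.Agent.LibST82.D

/-!
LibSt31/E0: combinatorial part of the evaluation of the functional `ST82.S` (MP_8b67e9, section 5).
The lattice part of the cube depends only on the length `R v` of the initial run of the gate bits `pos 0, pos 1, ...`.
-/

set_option autoImplicit false

namespace ST31

open ST82

variable {G P : Type*}

theorem vtx_apply {N : ℕ} (σ : Equiv.Perm (Fin N)) (t k : ℕ) (h : k < N) :
    vtx σ t k = decide ((σ.symm ⟨k, h⟩ : ℕ) < t) := by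
  unfold vtx
  rw [dif_pos h]

theorem vtx_lt {N : ℕ} {σ : Equiv.Perm (Fin N)} {t k : ℕ} (h : vtx σ t k = true) : k < N := by
  by_contra hk
  unfold vtx at h
  rw [dif_neg hk] at h
  exact Bool.false_ne_true h

theorem vtx_mono {N : ℕ} (σ : Equiv.Perm (Fin N)) (t : ℕ) : vtx σ t ≤ vtx σ (t + 1) := by
  intro k
  by_cases h : k < N
  · rw [vtx_apply σ _ _ h, vtx_apply σ _ _ h]
    intro h1
    rw [decide_eq_true_eq] at h1 ⊢
    omega
  · unfold vtx
    rw [dif_neg h, dif_neg h]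

/-- if the first `m` steps of a path are lattice steps then they switch on the gate bits in order -/
theorem pos_of_len {D : Datum G P} {m : ℕ} {Lt : (ℕ → Bool) → P} (R : (ℕ → Bool) → ℕ) (Λ : ℕ → P)
    (hLt : ∀ v, Lt v = Λ (R v)) (hmono : ∀ v w, v ≤ w → R v ≤ R w) (pos : ℕ → ℕ)
    (hpos : ∀ v j, j < R v → v (pos j) = true) (hinj : ∀ i j, i < j → pos i < pos j)
    (h0 : ∀ v, D.len (Lt v) (Lt v) = 0) (σ : Equiv.Perm (Fin (m + m)))
    (h : ∀ i < m, D.len (Lt (vtx σ i)) (Lt (vtx σ (i + 1))) = 1) :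
    (∀ t ≤ m, t ≤ R (vtx σ t)) ∧
      ∀ j < m, ∃ hj : pos j < m + m, (σ.symm ⟨pos j, hj⟩ : ℕ) = j := by
  have h1 : ∀ t ≤ m, t ≤ R (vtx σ t) := by
    intro t
    induction t with
    | zero => intro _; exact Nat.zero_le _
    | succ t ih =>
      intro ht
      have h2 := ih (by omega)
      have h3 := hmono _ _ (vtx_mono σ t)
      rcases Nat.lt_or_ge t (R (vtx σ (t + 1))) with h4 | h4
      · exact h4
      · exfalso
        have h5 : R (vtx σ t) = R (vtx σ (t + 1)) := by omega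
        have h6 := h t (by omega)
        have h7 : Lt (vtx σ t) = Lt (vtx σ (t + 1)) := by rw [hLt, hLt, h5]
        rw [← h7, h0] at h6
        omega
  refine ⟨h1, fun j => ?_⟩
  induction j using Nat.strong_induction_on with
  | _ j ih =>
    intro hj
    have h2 : vtx σ (j + 1) (pos j) = true := hpos _ _ (by
      have := h1 (j + 1) (by omega)
      omega)
    have hj' : pos j < m + m := vtx_lt h2
    refine ⟨hj', ?_⟩
    rw [vtx_apply σ _ _ hj', decide_eq_true_eq] at h2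
    by_contra hne
    have h3 : (σ.symm ⟨pos j, hj'⟩ : ℕ) < j := by omega
    obtain ⟨hi, h4⟩ := ih _ h3 (by omega)
    have h5 : σ.symm ⟨pos (σ.symm ⟨pos j, hj'⟩ : ℕ), hi⟩ = σ.symm ⟨pos j, hj'⟩ := Fin.ext h4
    have h6 := congrArg Fin.val (σ.symm.injective h5)
    have h7 := hinj _ _ h3
    have h8 : pos (σ.symm ⟨pos j, hj'⟩ : ℕ) = pos j := h6
    omega

/-- `kap` vanishes if both values of a letter vanish -/
theorem kap_zero (m : ℕ) (a b : ℕ → ℚ) (i : ℕ) (hi : i < m) (ha : a i = 0) (hb : b i = 0) :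
    kap m a b = 0 := by
  unfold kap
  refine Finset.sum_eq_zero fun p hp => ?_
  by_cases h : p = i
  · rw [h, ha, zero_mul, mul_zero]
  · have h1 : ∏ j ∈ (Finset.range m).erase p, b j = 0 :=
      Finset.prod_eq_zero (Finset.mem_erase.2 ⟨fun h' => h h'.symm, Finset.mem_range.2 hi⟩) hb
    rw [h1, mul_zero, mul_zero]

theorem kap_congr (m : ℕ) (a b a' b' : ℕ → ℚ) (h : ∀ i < m, a i = a' i) (h' : ∀ i < m, b i = b' i) :
    kap m a b = kap m a' b' := by
  unfold kap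
  refine Finset.sum_congr rfl fun p hp => ?_
  rw [h p (Finset.mem_range.1 hp)]
  have h1 : ∏ j ∈ (Finset.range m).erase p, b j = ∏ j ∈ (Finset.range m).erase p, b' j :=
    Finset.prod_congr rfl fun j hj => h' j (Finset.mem_range.1 (Finset.mem_of_mem_erase hj))
  rw [h1]

theorem kap_neg (m : ℕ) (a b : ℕ → ℚ) :
    kap m (fun i => -a i) (fun i => -b i) = (-1) ^ m * kap m a b := by
  unfold kap
  rw [Finset.mul_sum]
  refine Finset.sum_congr rfl fun p hp => ?_
  have hp' := Finset.mem_range.1 hp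
  have h1 : ∏ j ∈ (Finset.range m).erase p, -b j =
      (-1) ^ (m - 1) * ∏ j ∈ (Finset.range m).erase p, b j := by
    rw [Finset.prod_neg, Finset.card_erase_of_mem hp, Finset.card_range]
  rw [h1]
  have h2 : (-1 : ℚ) ^ m = (-1) ^ (m - 1) * (-1) := by
    rw [← pow_succ]
    congr 1
    omega
  rw [h2]
  ring

/-- the word `a b b ... b` -/
theorem kap_word (m : ℕ) (hm : 0 < m) (a b : ℕ → ℚ) (ha : ∀ i < m, a i = if i = 0 then 1 else 0)
    (hb : ∀ i < m, b i = if i = 0 then 0 else 1) : kap m a b = (-1) ^ (m - 1) := by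
  unfold kap
  rw [Finset.sum_eq_single 0]
  · rw [ha 0 hm, if_pos rfl]
    have h1 : ∏ j ∈ (Finset.range m).erase 0, b j = 1 := by
      refine Finset.prod_eq_one fun j hj => ?_
      rw [hb j (Finset.mem_range.1 (Finset.mem_of_mem_erase hj)), if_neg (Finset.ne_of_mem_erase hj)]
    rw [h1, Nat.choose_zero_right, Nat.sub_zero]
    norm_num
  · intro p hp h0
    rw [ha p (Finset.mem_range.1 hp), if_neg h0, zero_mul, mul_zero]
  · intro h
    exact absurd (Finset.mem_range.2 hm) h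

/-- fewer gate bits than lattice steps -/
theorem S_zero_of_few {D : Datum G P} {m p : ℕ} (hp : p < m) {Y : (ℕ → Bool) → G}
    {Lt : (ℕ → Bool) → P} (R : (ℕ → Bool) → ℕ) (Λ : ℕ → P)
    (hLt : ∀ v, Lt v = Λ (R v)) (hmono : ∀ v w, v ≤ w → R v ≤ R w) (pos : ℕ → ℕ)
    (hpos : ∀ v j, j < R v → v (pos j) = true) (hinj : ∀ i j, i < j → pos i < pos j)
    (h0 : ∀ v, D.len (Lt v) (Lt v) = 0) (hR : ∀ v, R v ≤ p) : S D m Y Lt = 0 := by
  unfold S
  refine Finset.sum_eq_zero fun σ _ => ?_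
  unfold sp
  rw [if_neg, mul_zero]
  intro h
  have h1 := (pos_of_len R Λ hLt hmono pos hpos hinj h0 σ h).1 m le_rfl
  have h2 := hR (vtx σ m)
  omega

/-- the values of `R` along a path -/
theorem R_vtx {m : ℕ} (R : (ℕ → Bool) → ℕ) (hmono : ∀ v w, v ≤ w → R v ≤ R w) (pos : ℕ → ℕ)
    (hpos : ∀ v j, j < R v → v (pos j) = true) (hR : ∀ v, R v ≤ m) (σ : Equiv.Perm (Fin (m + m)))
    (h1 : ∀ t ≤ m, t ≤ R (vtx σ t))
    (h2 : ∀ j < m, ∃ hj : pos j < m + m, (σ.symm ⟨pos j, hj⟩ : ℕ) = j) :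
    (∀ t ≤ m, R (vtx σ t) = t) ∧ ∀ k, R (vtx σ (m + k)) = m := by
  refine ⟨fun t ht => ?_, fun k => ?_⟩
  · refine le_antisymm ?_ (h1 t ht)
    rcases Nat.lt_or_ge m (R (vtx σ t)) with h | h
    · have := hR (vtx σ t)
      omega
    by_contra hlt
    have ht' : t < m := by omega
    obtain ⟨hj, h3⟩ := h2 t ht'
    have h4 := hpos (vtx σ t) t (by omega)
    rw [vtx_apply σ _ _ hj, decide_eq_true_eq, h3] at h4
    omega
  · refine le_antisymm (hR _) ?_
    induction k with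
    | zero => exact h1 m le_rfl
    | succ k ih => exact ih.trans (hmono _ _ (vtx_mono σ _))

/-- one letter without effect -/
theorem S_zero_of_letter {D : Datum G P} {m : ℕ} {Y : (ℕ → Bool) → G}
    {Lt : (ℕ → Bool) → P} (R : (ℕ → Bool) → ℕ) (Λ : ℕ → P)
    (hLt : ∀ v, Lt v = Λ (R v)) (hmono : ∀ v w, v ≤ w → R v ≤ R w) (pos : ℕ → ℕ)
    (hpos : ∀ v j, j < R v → v (pos j) = true) (hinj : ∀ i j, i < j → pos i < pos j)
    (h0 : ∀ v, D.len (Lt v) (Lt v) = 0) (hR : ∀ v, R v ≤ m) (i : ℕ) (hi : i < m)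
    (hA : ∀ v w, R v = m → R w = m → D.A (Y v) (Y w) (Λ i) (Λ (i + 1)) = 0)
    (hB : ∀ v w, R v = m → R w = m → D.B (Y v) (Y w) (Λ i) (Λ (i + 1)) = 0) :
    S D m Y Lt = 0 := by
  unfold S
  refine Finset.sum_eq_zero fun σ _ => ?_
  unfold sp
  split_ifs with h
  · obtain ⟨h1, h2⟩ := pos_of_len R Λ hLt hmono pos hpos hinj h0 σ h
    obtain ⟨h3, h4⟩ := R_vtx R hmono pos hpos hR σ h1 h2
    rw [kap_zero m _ _ i hi, mul_zero]
    · show D.A _ _ (Lt (vtx σ i)) (Lt (vtx σ (i + 1))) = 0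
      rw [hLt, hLt, h3 i hi.le, h3 (i + 1) hi]
      exact hA _ _ (h4 i) (h4 (i + 1))
    · show D.B _ _ (Lt (vtx σ i)) (Lt (vtx σ (i + 1))) = 0
      rw [hLt, hLt, h3 i hi.le, h3 (i + 1) hi]
      exact hB _ _ (h4 i) (h4 (i + 1))
  · rw [mul_zero]

/-- the relevant order of the coordinates: the gates `0, 2, 4, ...`, then the letters `1, 3, 5, ...` -/
def sg0 (m : ℕ) : Equiv.Perm (Fin (m + m)) where
  toFun t := if h : (t : ℕ) < m then ⟨2 * t, by omega⟩ else ⟨2 * (t - m) + 1, by omega⟩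
  invFun k := if h : (k : ℕ) % 2 = 0 then ⟨k / 2, by omega⟩ else ⟨m + k / 2, by omega⟩
  left_inv t := by
    by_cases h : (t : ℕ) < m
    · simp only [h, dif_pos]
      rw [dif_pos (by simp)]
      exact Fin.ext (by simp)
    · simp only [h, dif_neg, not_false_eq_true]
      rw [dif_neg (by omega)]
      refine Fin.ext ?_
      show m + (2 * ((t : ℕ) - m) + 1) / 2 = t
      omega
  right_inv k := by
    by_cases h : (k : ℕ) % 2 = 0
    · simp only [h, dif_pos]
      rw [dif_pos (by omega)]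
      refine Fin.ext ?_
      show 2 * ((k : ℕ) / 2) = k
      omega
    · simp only [h, dif_neg, not_false_eq_true]
      rw [dif_neg (by omega)]
      refine Fin.ext ?_
      show 2 * (m + (k : ℕ) / 2 - m) + 1 = k
      omega

theorem sg0_symm_even (m j : ℕ) (h : 2 * j < m + m) : (((sg0 m).symm ⟨2 * j, h⟩ : Fin (m + m)) : ℕ) = j := by
  have h1 : (sg0 m).symm ⟨2 * j, h⟩ = ⟨j, by omega⟩ := by
    show (if h : ((⟨2 * j, h⟩ : Fin (m + m)) : ℕ) % 2 = 0 then _ else _) = _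
    rw [dif_pos (by simp only; omega)]
    refine Fin.ext ?_
    show 2 * j / 2 = j
    omega
  rw [h1]

theorem sg0_symm_odd (m j : ℕ) (h : 2 * j + 1 < m + m) :
    (((sg0 m).symm ⟨2 * j + 1, h⟩ : Fin (m + m)) : ℕ) = m + j := by
  have h1 : (sg0 m).symm ⟨2 * j + 1, h⟩ = ⟨m + j, by omega⟩ := by
    show (if h : ((⟨2 * j + 1, h⟩ : Fin (m + m)) : ℕ) % 2 = 0 then _ else _) = _
    rw [dif_neg (by simp only; omega)]
    refine Fin.ext ?_
    show m + (2 * j + 1) / 2 = m + j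
    omega
  rw [h1]

theorem eq_sg0 (m : ℕ) (σ : Equiv.Perm (Fin (m + m)))
    (h1 : ∀ j (h : 2 * j < m + m), (σ.symm ⟨2 * j, h⟩ : ℕ) = j)
    (h2 : ∀ j (h : 2 * j + 1 < m + m), (σ.symm ⟨2 * j + 1, h⟩ : ℕ) = m + j) : σ = sg0 m := by
  have h3 : σ.symm = (sg0 m).symm := by
    ext ⟨k, hk⟩
    rcases Nat.even_or_odd' k with ⟨j, rfl | rfl⟩
    · rw [h1 j hk, sg0_symm_even]
    · rw [h2 j hk, sg0_symm_odd]
  have h4 := congrArg Equiv.symm h3
  rwa [Equiv.symm_symm, Equiv.symm_symm] at h4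

/-- the sign of the relevant order -/
def sgn (m : ℕ) : ℚ := ((Equiv.Perm.sign (sg0 m) : ℤ) : ℚ)

theorem sgn_ne (m : ℕ) : sgn m ≠ 0 := by
  unfold sgn
  rcases Int.units_eq_one_or (Equiv.Perm.sign (sg0 m)) with h | h
  · rw [h]; norm_num
  · rw [h]; norm_num

/-- the value of `S` if all dimensions are one -/
theorem S_one {D : Datum G P} {m : ℕ} {Y : (ℕ → Bool) → G}
    {Lt : (ℕ → Bool) → P} (R : (ℕ → Bool) → ℕ) (Λ : ℕ → P)
    (hLt : ∀ v, Lt v = Λ (R v)) (hmono : ∀ v w, v ≤ w → R v ≤ R w)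
    (hpos : ∀ v j, j < R v → v (2 * j) = true)
    (hpos' : ∀ v j, j ≤ m → (∀ i < j, v (2 * i) = true) → j ≤ R v)
    (h0 : ∀ v, D.len (Lt v) (Lt v) = 0) (hR : ∀ v, R v ≤ m)
    (hlen : ∀ i < m, D.len (Λ i) (Λ (i + 1)) = 1) (a b : ℕ → ℚ)
    (hA : ∀ v w, R v = m → R w = m → ∀ i < m, D.A (Y v) (Y w) (Λ i) (Λ (i + 1)) =
      (if w (2 * i + 1) then a i else 0) - (if v (2 * i + 1) then a i else 0))
    (hB : ∀ v w, R v = m → R w = m → ∀ i < m, D.B (Y v) (Y w) (Λ i) (Λ (i + 1)) =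
      (if w (2 * i + 1) then b i else 0) - (if v (2 * i + 1) then b i else 0)) :
    S D m Y Lt = sgn m * kap m a b := by
  unfold S
  rw [Finset.sum_eq_single (sg0 m)]
  · have h1 : ∀ t ≤ m, t ≤ R (vtx (sg0 m) t) := by
      intro t ht
      refine hpos' _ t ht fun i hi => ?_
      rw [vtx_apply _ _ _ (by omega : 2 * i < m + m), sg0_symm_even, decide_eq_true_eq]
      exact hi
    have h2 : ∀ j < m, ∃ hj : 2 * j < m + m, ((sg0 m).symm ⟨2 * j, hj⟩ : ℕ) = j :=
      fun j hj => ⟨by omega, sg0_symm_even m j (by omega)⟩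
    obtain ⟨h3, h4⟩ := R_vtx R hmono (fun j => 2 * j) hpos hR (sg0 m) h1 h2
    unfold sp sgn
    rw [if_pos]
    · congr 1
      have hv : ∀ i < m, ((if vtx (sg0 m) (m + i + 1) (2 * i + 1) then (1 : ℚ) else 0) = 1) ∧
          ((if vtx (sg0 m) (m + i) (2 * i + 1) then (1 : ℚ) else 0) = 0) := by
        intro i hi
        rw [vtx_apply _ _ _ (by omega : 2 * i + 1 < m + m), vtx_apply _ _ _ (by omega : 2 * i + 1 < m + m),
          sg0_symm_odd]
        simp
      refine kap_congr m _ _ _ _ (fun i hi => ?_) fun i hi => ?_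
      · show D.A _ _ (Lt (vtx (sg0 m) i)) (Lt (vtx (sg0 m) (i + 1))) = a i
        rw [hLt, hLt, h3 i hi.le, h3 (i + 1) hi]
        have h5 := hA (vtx (sg0 m) (m + i)) (vtx (sg0 m) (m + i + 1)) (h4 i) (h4 (i + 1)) i hi
        rw [h5, vtx_apply _ _ _ (by omega : 2 * i + 1 < m + m), vtx_apply _ _ _ (by omega : 2 * i + 1 < m + m),
          sg0_symm_odd]
        simp
      · show D.B _ _ (Lt (vtx (sg0 m) i)) (Lt (vtx (sg0 m) (i + 1))) = b i
        rw [hLt, hLt, h3 i hi.le, h3 (i + 1) hi]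
        have h5 := hB (vtx (sg0 m) (m + i)) (vtx (sg0 m) (m + i + 1)) (h4 i) (h4 (i + 1)) i hi
        rw [h5, vtx_apply _ _ _ (by omega : 2 * i + 1 < m + m), vtx_apply _ _ _ (by omega : 2 * i + 1 < m + m),
          sg0_symm_odd]
        simp
    · intro i hi
      show D.len (Lt (vtx (sg0 m) i)) (Lt (vtx (sg0 m) (i + 1))) = 1
      rw [hLt, hLt, h3 i hi.le, h3 (i + 1) hi]
      exact hlen i hi
  · intro σ _ hσ
    unfold sp
    split_ifs with h
    · obtain ⟨h1, h2⟩ := pos_of_len R Λ hLt hmono (fun j => 2 * j) hpos (fun i j hij => by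
        show 2 * i < 2 * j
        omega) h0 σ h
      obtain ⟨h3, h4⟩ := R_vtx R hmono (fun j => 2 * j) hpos hR σ h1 h2
      -- some letter is missed
      have h5 : ∃ i < m, ∃ hi : 2 * i + 1 < m + m, (σ.symm ⟨2 * i + 1, hi⟩ : ℕ) ≠ m + i := by
        by_contra hcon
        push Not at hcon
        exact hσ (eq_sg0 m σ (fun j hj => (h2 j (by omega)).2) fun j hj => hcon j (by omega) hj)
      obtain ⟨i, hi, hi', h6⟩ := h5
      have h7 : vtx σ (m + i + 1) (2 * i + 1) = vtx σ (m + i) (2 * i + 1) := by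
        rw [vtx_apply _ _ _ hi', vtx_apply _ _ _ hi']
        congr 1
        rw [eq_iff_iff]
        omega
      rw [kap_zero m _ _ i hi, mul_zero]
      · show D.A _ _ (Lt (vtx σ i)) (Lt (vtx σ (i + 1))) = 0
        rw [hLt, hLt, h3 i hi.le, h3 (i + 1) hi]
        have h8 := hA (vtx σ (m + i)) (vtx σ (m + i + 1)) (h4 i) (h4 (i + 1)) i hi
        rw [h8, h7, sub_self]
      · show D.B _ _ (Lt (vtx σ i)) (Lt (vtx σ (i + 1))) = 0
        rw [hLt, hLt, h3 i hi.le, h3 (i + 1) hi]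
        have h8 := hB (vtx σ (m + i)) (vtx σ (m + i + 1)) (h4 i) (h4 (i + 1)) i hi
        rw [h8, h7, sub_self]
    · rw [mul_zero]
  · intro h
    exact absurd (Finset.mem_univ _) h

end ST31
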