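import Pool.Agent.LibSt31.E0
import Pool.Agent.LibSt16.Th
import Pool.Agent.LibST82.G0

/-!
LibSt31/E1: the functional `ST82.S` on the cubes `th x l` (MP_8b67e9, section 5).
-/

set_option autoImplicit false

noncomputable section

namespace ST31

open St16 ST82

variable {G P G' P' : Type} [Group G] [Preorder P] [MulAction G P] [Group G'] [Preorder P'] [MulAction G' P']
  {S : Sys G P} {S' : Sys G' P'} {d : ℕ}

/-- number of leading gates which are switched on -/
def run : Cb S → List (Cb S) → (ℕ → Bool) → ℕ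
  | _, [], s => if s 0 then 1 else 0
  | x, x' :: l, s => if s 0 then 1 + run x' l (fun i => s (1 + x.q + i)) else 0

/-- position of the gates -/
def apos : Cb S → List (Cb S) → ℕ → ℕ
  | _, _, 0 => 0
  | x, [], j + 1 => (j + 1) * (1 + x.q)
  | x, x' :: l, j + 1 => 1 + x.q + apos x' l j

theorem run_le (x : Cb S) (l : List (Cb S)) (s : ℕ → Bool) : run x l s ≤ l.length + 1 := by
  induction l generalizing x s with
  | nil =>
    unfold run
    split_ifs <;> simp
  | cons x' l ih =>
    unfold run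
    split_ifs
    · have := ih x' (fun i => s (1 + x.q + i))
      rw [List.length_cons]
      omega
    · omega

theorem run_mono (x : Cb S) (l : List (Cb S)) (s s' : ℕ → Bool) (h : s ≤ s') : run x l s ≤ run x l s' := by
  induction l generalizing x s s' with
  | nil =>
    unfold run
    have h0 := h 0
    by_cases h1 : s 0
    · have h2 : s' 0 = true := h0 h1
      rw [h1, h2]
    · rw [if_neg h1]
      exact Nat.zero_le _
  | cons x' l ih =>
    unfold run
    have h0 := h 0
    by_cases h1 : s 0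
    · have h2 : s' 0 = true := h0 h1
      rw [if_pos h1, if_pos h2]
      exact Nat.add_le_add_left (ih x' _ _ fun i => h _) _
    · rw [if_neg h1]
      exact Nat.zero_le _

theorem run_pos (x : Cb S) (l : List (Cb S)) (s : ℕ → Bool) (j : ℕ) (h : j < run x l s) :
    s (apos x l j) = true := by
  induction l generalizing x s j with
  | nil =>
    unfold run at h
    by_cases h1 : s 0
    · rw [if_pos h1] at h
      have h2 : j = 0 := by omega
      subst h2
      unfold apos
      exact h1
    · rw [if_neg h1] at h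
      omega
  | cons x' l ih =>
    unfold run at h
    by_cases h1 : s 0
    · rw [if_pos h1] at h
      cases j with
      | zero =>
        unfold apos
        exact h1
      | succ j =>
        unfold apos
        exact ih x' (fun i => s (1 + x.q + i)) j (by omega)
    · rw [if_neg h1] at h
      omega

theorem apos_lt (x : Cb S) (l : List (Cb S)) (j : ℕ) : apos x l j < apos x l (j + 1) := by
  induction l generalizing x j with
  | nil =>
    cases j with
    | zero =>
      show 0 < (0 + 1) * (1 + x.q)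
      rw [zero_add, one_mul]
      omega
    | succ j =>
      show (j + 1) * (1 + x.q) < (j + 1 + 1) * (1 + x.q)
      exact Nat.mul_lt_mul_of_pos_right (by omega) (by omega)
  | cons x' l ih =>
    cases j with
    | zero =>
      show 0 < 1 + x.q + apos x' l 0
      omega
    | succ j =>
      show 1 + x.q + apos x' l j < 1 + x.q + apos x' l (j + 1)
      exact Nat.add_lt_add_left (ih x' j) _

theorem apos_mono (x : Cb S) (l : List (Cb S)) (i j : ℕ) (h : i < j) : apos x l i < apos x l j :=
  strictMono_nat_of_lt_succ (apos_lt x l) h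

/-- all dimensions one: the gates are the even coordinates -/
theorem apos_one (x : Cb S) (l : List (Cb S)) (h : ∀ c ∈ x :: l, c.q = 1) (j : ℕ) : apos x l j = 2 * j := by
  induction l generalizing x j with
  | nil =>
    cases j with
    | zero => rfl
    | succ j =>
      show (j + 1) * (1 + x.q) = _
      rw [h x (List.mem_cons_self)]
      ring
  | cons x' l ih =>
    cases j with
    | zero => rfl
    | succ j =>
      show 1 + x.q + apos x' l j = _
      rw [ih x' (fun c hc => h c (List.mem_cons_of_mem _ hc)), h x (List.mem_cons_self)]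
      ring

theorem run_ge (x : Cb S) (l : List (Cb S)) (s : ℕ → Bool) (j : ℕ) (hj : j ≤ l.length + 1)
    (h : ∀ i < j, s (apos x l i) = true) : j ≤ run x l s := by
  induction l generalizing x s j with
  | nil =>
    cases j with
    | zero => exact Nat.zero_le _
    | succ j =>
      have h0 : s 0 = true := h 0 (Nat.succ_pos _)
      unfold run
      rw [if_pos h0]
      simpa using hj
  | cons x' l ih =>
    cases j with
    | zero => exact Nat.zero_le _
    | succ j =>
      have h0 : s 0 = true := h 0 (Nat.succ_pos _)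
      unfold run
      rw [if_pos h0]
      have := ih x' (fun i => s (1 + x.q + i)) j (by simpa using hj) fun i hi => h (i + 1) (by omega)
      omega

variable (H : Hty S S' d)

/-- the lattice with the first `n` blocks at the upper end -/
def Lm : ℕ → Cb S → List (Cb S) → P'
  | n, x, [] => if 0 < n then H.L1 x.r else H.L0 x.r
  | n, x, x' :: l => S'.jn (d * x.r) (if 0 < n then H.L1 x.r else H.L0 x.r) (Lm (n - 1) x' l)

theorem tl_false (x : Cb S) (l : List (Cb S)) (s : ℕ → Bool) : H.tl false x l s = Lm H 0 x l := by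
  induction l generalizing x s with
  | nil => rfl
  | cons x' l ih =>
    unfold Hty.tl Lm
    simp only [Bool.false_and, Bool.false_eq_true, if_false, lt_self_iff_false, Nat.zero_sub]
    rw [ih]

theorem tl_true (x : Cb S) (l : List (Cb S)) (s : ℕ → Bool) :
    H.tl true x l s = Lm H (run x l s) x l := by
  induction l generalizing x s with
  | nil =>
    unfold Hty.tl Lm run
    by_cases h : s 0
    · simp [h]
    · simp [h]
  | cons x' l ih =>
    unfold Hty.tl Lm run
    by_cases h : s 0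
    · simp only [h, Bool.and_self, if_true]
      rw [ih, if_pos (by omega), Nat.add_sub_cancel_left]
    · simp only [h, Bool.and_false, Bool.false_eq_true, if_false, lt_self_iff_false, Nat.zero_sub]
      rw [tl_false]

theorem Lm_mem (n : ℕ) (x : Cb S) (l : List (Cb S)) : Lm H n x l ∈ S'.Pn (d * Hty.lr x l) := by
  induction l generalizing n x with
  | nil =>
    unfold Lm Hty.lr
    split_ifs
    · exact H.L1_mem _
    · exact H.L0_mem _
  | cons x' l ih =>
    unfold Lm Hty.lr
    rw [Nat.mul_add]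
    refine S'.jn_mem _ _ _ _ ?_ (ih _ _)
    split_ifs
    · exact H.L1_mem _
    · exact H.L0_mem _

theorem Lm_mono (n : ℕ) (x : Cb S) (l : List (Cb S)) : Lm H n x l ≤ Lm H (n + 1) x l := by
  induction l generalizing n x with
  | nil =>
    unfold Lm
    rw [if_pos (Nat.succ_pos n)]
    split_ifs
    · exact le_rfl
    · exact H.L_le _
  | cons x' l ih =>
    unfold Lm
    rw [if_pos (Nat.succ_pos n)]
    refine S'.jn_mono _ _ _ _ _ ?_ ?_
    · split_ifs
      · exact le_rfl
      · exact H.L_le _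
    · cases n with
      | zero => exact le_rfl
      | succ n =>
        rw [Nat.add_sub_cancel, Nat.add_sub_cancel]
        exact ih n x'

variable (Fm : Fam S')

theorem len_self (n : ℕ) (x : P') (hx : x ∈ S'.Pn n) : (Fm.D n).len x x = 0 := by
  have h := (Fm.D n).len_add x x x (Fm.pm n x hx) (Fm.pm n x hx) (Fm.pm n x hx)
    (Fm.le n x x le_rfl) (Fm.le n x x le_rfl)
  omega

theorem Lm_len (x : Cb S) (l : List (Cb S))
    (h1 : ∀ c ∈ x :: l, (Fm.D (d * c.r)).len (H.L0 c.r) (H.L1 c.r) = 1) (n : ℕ) (hn : n ≤ l.length) :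
    (Fm.D (d * Hty.lr x l)).len (Lm H n x l) (Lm H (n + 1) x l) = 1 := by
  induction l generalizing x n with
  | nil =>
    have hn0 : n = 0 := by simpa using hn
    subst hn0
    unfold Lm Hty.lr
    simp only [lt_self_iff_false, if_false, zero_add, Nat.zero_lt_one, if_true]
    exact h1 x List.mem_cons_self
  | cons x' l ih =>
    unfold Lm Hty.lr
    rw [Nat.mul_add, if_pos (Nat.succ_pos n)]
    have hL : (if 0 < n then H.L1 x.r else H.L0 x.r) ∈ S'.Pn (d * x.r) := by
      split_ifs
      · exact H.L1_mem _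
      · exact H.L0_mem _
    have hle : (if 0 < n then H.L1 x.r else H.L0 x.r) ≤ H.L1 x.r := by
      split_ifs
      · exact le_rfl
      · exact H.L_le _
    have hle' : Lm H (n - 1) x' l ≤ Lm H (n + 1 - 1) x' l := by
      cases n with
      | zero => exact le_rfl
      | succ n =>
        rw [Nat.add_sub_cancel, Nat.add_sub_cancel]
        exact Lm_mono H n x' l
    rw [← Fm.T_ls (d * x.r) (d * Hty.lr x' l), ← Fm.T_ls (d * x.r) (d * Hty.lr x' l),
      (Fm.T (d * x.r) (d * Hty.lr x' l)).len _ _ _ _ (Fm.pm _ _ hL) (Fm.pm _ _ (H.L1_mem _)) (Fm.le _ _ _ hle)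
        (Fm.pm _ _ (Lm_mem H _ _ _)) (Fm.pm _ _ (Lm_mem H _ _ _)) (Fm.le _ _ _ hle')]
    cases n with
    | zero =>
      rw [if_neg (lt_irrefl 0)]
      have h2 : (Fm.D (d * Hty.lr x' l)).len (Lm H (0 - 1) x' l) (Lm H (0 + 1 - 1) x' l) = 0 :=
        len_self Fm _ _ (Lm_mem H _ _ _)
      rw [h2, h1 x List.mem_cons_self]
    | succ n =>
      rw [if_pos (Nat.succ_pos n), len_self Fm _ _ (H.L1_mem _), Nat.add_sub_cancel, Nat.add_sub_cancel,
        ih x' (fun c hc => h1 c (List.mem_cons_of_mem _ hc)) n (by simpa using hn)]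

/-! ### the cocycles -/

/-- a cocycle compatible with block sums -/
structure Coc (AA : ℕ → G' → G' → P' → P' → ℚ) : Prop where
  low : ∀ n n' g g' h h' x x' y, g ∈ S'.Gn n → g' ∈ S'.Gn n → h ∈ S'.Gn n' → h' ∈ S'.Gn n' →
    x ∈ S'.Pn n → x' ∈ S'.Pn n → x ≤ x' → (Fm.D n).len x x' = 1 → y ∈ S'.Pn n' →
    AA (n + n') (g * S'.sh n h) (g' * S'.sh n h') (S'.jn n x y) (S'.jn n x' y) = AA n g g' x x'
  high : ∀ n n' g g' h h' x y y', g ∈ S'.Gn n → g' ∈ S'.Gn n → h ∈ S'.Gn n' → h' ∈ S'.Gn n' →
    x ∈ S'.Pn n → y ∈ S'.Pn n' → y' ∈ S'.Pn n' → y ≤ y' → (Fm.D n').len y y' = 1 →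
    AA (n + n') (g * S'.sh n h) (g' * S'.sh n h') (S'.jn n x y) (S'.jn n x y') = AA n' h h' y y'
  add : ∀ n g g' g'' x y, g ∈ S'.Gn n → g' ∈ S'.Gn n → g'' ∈ S'.Gn n → x ∈ S'.Pn n → y ∈ S'.Pn n →
    x ≤ y → (Fm.D n).len x y = 1 → AA n g g'' x y = AA n g g' x y + AA n g' g'' x y

theorem coc_A : Coc Fm (fun n => (Fm.D n).A) where
  low := by
    intro n n' g g' h h' x x' y hg hg' hh hh' hx hx' hle h1 hy
    have := (Fm.T n n').A1 g g' h h' x x' y (Fm.gm _ _ hg) (Fm.gm _ _ hg') (Fm.gm _ _ hh) (Fm.gm _ _ hh')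
      (Fm.pm _ _ hx) (Fm.pm _ _ hx') (Fm.le _ _ _ hle) h1 (Fm.pm _ _ hy)
    rw [Fm.T_gs, Fm.T_gs, Fm.T_ls, Fm.T_ls] at this
    exact this
  high := by
    intro n n' g g' h h' x y y' hg hg' hh hh' hx hy hy' hle h1
    have := (Fm.T n n').A2 g g' h h' x y y' (Fm.gm _ _ hg) (Fm.gm _ _ hg') (Fm.gm _ _ hh) (Fm.gm _ _ hh')
      (Fm.pm _ _ hx) (Fm.pm _ _ hy) (Fm.pm _ _ hy') (Fm.le _ _ _ hle) h1
    rw [Fm.T_gs, Fm.T_gs, Fm.T_ls, Fm.T_ls] at this
    exact this
  add := fun n g g' g'' x y hg hg' hg'' hx hy hle h1 =>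
    (Fm.D n).A_add g g' g'' x y (Fm.gm _ _ hg) (Fm.gm _ _ hg') (Fm.gm _ _ hg'') (Fm.pm _ _ hx) (Fm.pm _ _ hy)
      (Fm.le _ _ _ hle) h1

theorem coc_B : Coc Fm (fun n => (Fm.D n).B) where
  low := by
    intro n n' g g' h h' x x' y hg hg' hh hh' hx hx' hle h1 hy
    have := (Fm.T n n').B1 g g' h h' x x' y (Fm.gm _ _ hg) (Fm.gm _ _ hg') (Fm.gm _ _ hh) (Fm.gm _ _ hh')
      (Fm.pm _ _ hx) (Fm.pm _ _ hx') (Fm.le _ _ _ hle) h1 (Fm.pm _ _ hy)
    rw [Fm.T_gs, Fm.T_gs, Fm.T_ls, Fm.T_ls] at this
    exact this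
  high := by
    intro n n' g g' h h' x y y' hg hg' hh hh' hx hy hy' hle h1
    have := (Fm.T n n').B2 g g' h h' x y y' (Fm.gm _ _ hg) (Fm.gm _ _ hg') (Fm.gm _ _ hh) (Fm.gm _ _ hh')
      (Fm.pm _ _ hx) (Fm.pm _ _ hy) (Fm.pm _ _ hy') (Fm.le _ _ _ hle) h1
    rw [Fm.T_gs, Fm.T_gs, Fm.T_ls, Fm.T_ls] at this
    exact this
  add := fun n g g' g'' x y hg hg' hg'' hx hy hle h1 =>
    (Fm.D n).B_add g g' g'' x y (Fm.gm _ _ hg) (Fm.gm _ _ hg') (Fm.gm _ _ hg'') (Fm.pm _ _ hx) (Fm.pm _ _ hy)
      (Fm.le _ _ _ hle) h1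

variable (AA : ℕ → G' → G' → P' → P' → ℚ)

/-- the cocycle of one block with group elements `g`, `g'` -/
def blk (c : Cb S) (g g' : G) : ℚ :=
  AA (d * c.r) (H.fG g * H.tau c.r) (H.fG g' * H.tau c.r) (H.L0 c.r) (H.L1 c.r)

/-- the cocycle of the block `i` -/
def Al : ℕ → Cb S → List (Cb S) → (ℕ → Bool) → (ℕ → Bool) → ℚ
  | 0, x, _, v, w => blk H AA x (x.y (fun i => v (1 + i))) (x.y (fun i => w (1 + i)))
  | _ + 1, _, [], _, _ => 0
  | i + 1, x, x' :: l, v, w => Al i x' l (fun i => v (1 + x.q + i)) (fun i => w (1 + x.q + i))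

theorem coc_eq (hAA : Coc Fm AA) (x : Cb S) (l : List (Cb S))
    (h1 : ∀ c ∈ x :: l, (Fm.D (d * c.r)).len (H.L0 c.r) (H.L1 c.r) = 1) (v w : ℕ → Bool)
    (hv : run x l v = l.length + 1) (hw : run x l w = l.length + 1) (i : ℕ) (hi : i ≤ l.length) :
    AA (d * Hty.lr x l) (H.ty true x l v) (H.ty true x l w) (Lm H i x l) (Lm H (i + 1) x l) =
      Al H AA i x l v w := by
  induction l generalizing x v w i with
  | nil =>
    have hi0 : i = 0 := by simpa using hi
    subst hi0
    have hv0 : v 0 = true := by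
      by_contra h
      unfold run at hv
      rw [if_neg h] at hv
      simp at hv
    have hw0 : w 0 = true := by
      by_contra h
      unfold run at hw
      rw [if_neg h] at hw
      simp at hw
    unfold Hty.lr Hty.ty Lm Al blk
    simp only [hv0, hw0, Bool.and_self, if_true, lt_self_iff_false, if_false, zero_add, Nat.zero_lt_one]
  | cons x' l ih =>
    have hv0 : v 0 = true := by
      by_contra h
      unfold run at hv
      rw [if_neg h] at hv
      simp at hv
    have hw0 : w 0 = true := by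
      by_contra h
      unfold run at hw
      rw [if_neg h] at hw
      simp at hw
    have hv1 : run x' l (fun i => v (1 + x.q + i)) = l.length + 1 := by
      unfold run at hv
      rw [if_pos hv0, List.length_cons] at hv
      omega
    have hw1 : run x' l (fun i => w (1 + x.q + i)) = l.length + 1 := by
      unfold run at hw
      rw [if_pos hw0, List.length_cons] at hw
      omega
    have ht : ∀ s : ℕ → Bool, s 0 = true → H.ty true x (x' :: l) s =
        (H.fG (x.y (fun i => s (1 + i))) * H.tau x.r) *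
          S'.sh (d * x.r) (H.ty true x' l (fun i => s (1 + x.q + i))) := by
      intro s hs
      show (H.fG (x.y (fun i => s (1 + i))) * (if true && s 0 then H.tau x.r else 1)) *
          S'.sh (d * x.r) (H.ty (true && s 0) x' l (fun i => s (1 + x.q + i))) = _
      rw [hs]
      rfl
    have hm : ∀ s : ℕ → Bool, H.fG (x.y (fun i => s (1 + i))) * H.tau x.r ∈ S'.Gn (d * x.r) :=
      fun s => mul_mem (H.G_mem _ _ (x.y_mem _)) (H.tau_mem _)
    rw [ht v hv0, ht w hw0]
    unfold Hty.lr
    rw [Nat.mul_add]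
    cases i with
    | zero =>
      show AA _ _ _ (S'.jn (d * x.r) (H.L0 x.r) (Lm H 0 x' l)) (S'.jn (d * x.r) (H.L1 x.r) (Lm H 0 x' l)) = _
      exact hAA.low _ _ _ _ _ _ _ _ _ (hm v) (hm w) (H.ty_mem _ _ _ _) (H.ty_mem _ _ _ _) (H.L0_mem _)
        (H.L1_mem _) (H.L_le _) (h1 x List.mem_cons_self) (Lm_mem H _ _ _)
    | succ i =>
      show AA _ _ _ (S'.jn (d * x.r) (H.L1 x.r) (Lm H i x' l)) (S'.jn (d * x.r) (H.L1 x.r) (Lm H (i + 1) x' l)) = _
      have h1' : ∀ c ∈ x' :: l, (Fm.D (d * c.r)).len (H.L0 c.r) (H.L1 c.r) = 1 :=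
        fun c hc => h1 c (List.mem_cons_of_mem _ hc)
      have hi' : i ≤ l.length := by simpa using hi
      rw [hAA.high _ _ _ _ _ _ _ _ _ (hm v) (hm w) (H.ty_mem _ _ _ _) (H.ty_mem _ _ _ _) (H.L1_mem _)
        (Lm_mem H _ _ _) (Lm_mem H _ _ _) (Lm_mono H _ _ _) (Lm_len H Fm x' l h1' i hi')]
      exact ih x' h1' _ _ hv1 hw1 i hi'

/-! ### values of the blocks -/

variable (hAA : Coc Fm AA)

include hAA in
theorem blk_add (c : Cb S) (h1 : (Fm.D (d * c.r)).len (H.L0 c.r) (H.L1 c.r) = 1) (g g' g'' : G)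
    (hg : g ∈ S.Gn c.r) (hg' : g' ∈ S.Gn c.r) (hg'' : g'' ∈ S.Gn c.r) :
    blk H AA c g g'' = blk H AA c g g' + blk H AA c g' g'' :=
  hAA.add _ _ _ _ _ _ (mul_mem (H.G_mem _ _ hg) (H.tau_mem _)) (mul_mem (H.G_mem _ _ hg') (H.tau_mem _))
    (mul_mem (H.G_mem _ _ hg'') (H.tau_mem _)) (H.L0_mem _) (H.L1_mem _) (H.L_le _) h1

include hAA in
theorem blk_self (c : Cb S) (h1 : (Fm.D (d * c.r)).len (H.L0 c.r) (H.L1 c.r) = 1) (g : G)
    (hg : g ∈ S.Gn c.r) : blk H AA c g g = 0 := by
  have h := blk_add H Fm AA hAA c h1 g g g hg hg hg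
  linarith

/-- the letter of a cube of dimension one -/
def ltr (c : Cb S) : G := c.y (fun _ => true)

/-- the value of a cube of dimension one -/
def val (c : Cb S) : ℚ := blk H AA c 1 (ltr c)

include hAA in
theorem Al_zero (x : Cb S) (l : List (Cb S))
    (h1 : ∀ c ∈ x :: l, (Fm.D (d * c.r)).len (H.L0 c.r) (H.L1 c.r) = 1) (i : ℕ) (c : Cb S)
    (hc : (x :: l)[i]? = some c) (hq : c.q = 0) (v w : ℕ → Bool) : Al H AA i x l v w = 0 := by
  induction l generalizing x i v w with
  | nil =>
    cases i with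
    | zero =>
      have h2 : x = c := by simpa using hc
      subst h2
      unfold Al
      rw [x.y_dep (fun i => w (1 + i)) (fun i => v (1 + i)) (fun i hi => by omega)]
      exact blk_self H Fm AA hAA x (h1 x List.mem_cons_self) _ (x.y_mem _)
    | succ i => rfl
  | cons x' l ih =>
    cases i with
    | zero =>
      have h2 : x = c := by simpa using hc
      subst h2
      unfold Al
      rw [x.y_dep (fun i => w (1 + i)) (fun i => v (1 + i)) (fun i hi => by omega)]
      exact blk_self H Fm AA hAA x (h1 x List.mem_cons_self) _ (x.y_mem _)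
    | succ i =>
      unfold Al
      exact ih x' (fun c hc => h1 c (List.mem_cons_of_mem _ hc)) i (by simpa using hc) _ _

include hAA in
theorem blk_one (c : Cb S) (h1 : (Fm.D (d * c.r)).len (H.L0 c.r) (H.L1 c.r) = 1) (hq : c.q = 1)
    (v w : ℕ → Bool) : blk H AA c (c.y v) (c.y w) =
      (if w 0 then val H AA c else 0) - (if v 0 then val H AA c else 0) := by
  have hy : ∀ s : ℕ → Bool, c.y s = if s 0 then ltr c else 1 := by
    intro s
    by_cases h : s 0
    · rw [if_pos h]
      exact c.y_dep _ _ fun i hi => by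
        have : i = 0 := by omega
        rw [this, h]
    · rw [if_neg h, ← c.y_zero]
      exact c.y_dep _ _ fun i hi => by
        have : i = 0 := by omega
        rw [this]
        simpa [z0] using h
  have hl : ltr c ∈ S.Gn c.r := c.y_mem _
  have h11 := blk_self H Fm AA hAA c h1 1 (one_mem _)
  have hll := blk_self H Fm AA hAA c h1 (ltr c) hl
  have h3 := blk_add H Fm AA hAA c h1 1 (ltr c) 1 (one_mem _) hl (one_mem _)
  rw [hy v, hy w]
  have hval : val H AA c = blk H AA c 1 (ltr c) := rfl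
  split_ifs
  · rw [hll]; ring
  · rw [hval]; linarith
  · rw [hval]; ring
  · rw [h11]; ring

include hAA in
theorem Al_one (x : Cb S) (l : List (Cb S))
    (h1 : ∀ c ∈ x :: l, (Fm.D (d * c.r)).len (H.L0 c.r) (H.L1 c.r) = 1)
    (hq : ∀ c ∈ x :: l, c.q = 1) (i : ℕ) (hi : i ≤ l.length) (v w : ℕ → Bool) :
    Al H AA i x l v w = (if w (2 * i + 1) then ((x :: l).map (val H AA)).getD i 0 else 0) -
      (if v (2 * i + 1) then ((x :: l).map (val H AA)).getD i 0 else 0) := by
  induction l generalizing x i v w with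
  | nil =>
    have hi0 : i = 0 := by simpa using hi
    subst hi0
    exact blk_one H Fm AA hAA x (h1 x List.mem_cons_self) (hq x List.mem_cons_self) _ _
  | cons x' l ih =>
    cases i with
    | zero => exact blk_one H Fm AA hAA x (h1 x List.mem_cons_self) (hq x List.mem_cons_self) _ _
    | succ i =>
      have h2 := ih x' (fun c hc => h1 c (List.mem_cons_of_mem _ hc))
        (fun c hc => hq c (List.mem_cons_of_mem _ hc)) i (by simpa using hi) (fun i => v (1 + x.q + i))
        (fun i => w (1 + x.q + i))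
      have h3 : 1 + x.q + (2 * i + 1) = 2 * (i + 1) + 1 := by
        rw [hq x List.mem_cons_self]
        ring
      unfold Al
      rw [h2, h3]
      rfl

end ST31
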