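import Pool.Agent.LibSt31.E1

/-!
LibSt31/E2: the residue functional `FF` on `H.Th y` (MP_8b67e9, section 5).
-/

set_option autoImplicit false

noncomputable section

namespace ST31

open St16 ST82

variable {G P G' P' : Type} [Group G] [Preorder P] [MulAction G P] [Group G'] [Preorder P'] [MulAction G' P']
  {S : Sys G P} {S' : Sys G' P'}

theorem lr_eq (x : Cb S) (l : List (Cb S)) : Hty.lr x l = ((x :: l).map Cb.r).sum := by
  induction l generalizing x with
  | nil => simp [Hty.lr]
  | cons x' l ih =>
    unfold Hty.lr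
    rw [ih]
    simp only [List.map_cons, List.sum_cons]

theorem lq_eq (x : Cb S) (l : List (Cb S)) : Hty.lq x l = ((x :: l).map Cb.q).sum + (x :: l).length := by
  induction l generalizing x with
  | nil =>
    simp [Hty.lq]
    omega
  | cons x' l ih =>
    unfold Hty.lq
    rw [ih]
    simp only [List.map_cons, List.sum_cons, List.length_cons]
    omega

theorem length_le_lr (x : Cb S) (l : List (Cb S)) : l.length + 1 ≤ Hty.lr x l := by
  induction l generalizing x with
  | nil =>
    unfold Hty.lr
    exact x.r_pos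
  | cons x' l ih =>
    unfold Hty.lr
    have := ih x'
    have := x.r_pos
    rw [List.length_cons]
    omega

/-- as many blocks as ranks: all ranks are one -/
theorem r_one (x : Cb S) (l : List (Cb S)) (h : Hty.lr x l = l.length + 1) : ∀ c ∈ x :: l, c.r = 1 := by
  induction l generalizing x with
  | nil =>
    intro c hc
    rw [List.mem_singleton] at hc
    subst hc
    simpa [Hty.lr] using h
  | cons x' l ih =>
    have h1 := length_le_lr x' l
    have h2 := x.r_pos
    unfold Hty.lr at h
    rw [List.length_cons] at h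
    intro c hc
    rcases List.mem_cons.1 hc with rfl | hc
    · omega
    · exact ih x' (by omega) c hc

theorem q_one (w : List (Cb S)) (h : ∀ c ∈ w, c.q ≠ 0) (h' : (w.map Cb.q).sum = w.length) :
    ∀ c ∈ w, c.q = 1 := by
  have h0 : ∀ w : List (Cb S), (∀ c ∈ w, c.q ≠ 0) → w.length ≤ (w.map Cb.q).sum := by
    intro w
    induction w with
    | nil => intro _; simp
    | cons x l ih =>
      intro h
      have h1 := ih fun c hc => h c (List.mem_cons_of_mem _ hc)
      have h2 := h x List.mem_cons_self
      rw [List.map_cons, List.sum_cons, List.length_cons]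
      omega
  induction w with
  | nil => intro c hc; simp at hc
  | cons x l ih =>
    have h1 := h0 l fun c hc => h c (List.mem_cons_of_mem _ hc)
    have h2 := h x List.mem_cons_self
    rw [List.map_cons, List.sum_cons, List.length_cons] at h'
    intro c hc
    rcases List.mem_cons.1 hc with rfl | hc
    · omega
    · exact ih (fun c hc => h c (List.mem_cons_of_mem _ hc)) (by omega) c hc

variable (H : Hty S S' 2) (Fm : Fam S') (m : ℕ)

/-! ### the functional on one `th`-cube -/

section th

variable {m} (x : Cb S) (l : List (Cb S)) (hr : Hty.lr x l = m)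

include hr

theorem lr_two : 2 * Hty.lr x l = m + m := by rw [hr]; ring

/-- few blocks -/
theorem Fcb_few (hl : l.length + 1 < m) : Fcb Fm m (H.th x l) = 0 := by
  unfold Fcb
  split_ifs with h
  · show ST82.S (Fm.D (m + m)) m (H.ty true x l) (H.tl true x l) = 0
    refine S_zero_of_few hl (run x l) (fun n => Lm H n x l) (tl_true H x l) (fun v w => run_mono x l v w)
      (apos x l) (fun v j => run_pos x l v j) (apos_mono x l) (fun v => ?_) (fun v => run_le x l v)
    have h1 := H.tl_mem true x l v
    rw [lr_two x l hr] at h1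
    exact len_self Fm _ _ h1
  · rfl

variable (hlen : (Fm.D 2).len (H.L0 1) (H.L1 1) = 1) (hl : l.length + 1 = m)

include hl hlen

theorem hlen' : ∀ c ∈ x :: l, (Fm.D (2 * c.r)).len (H.L0 c.r) (H.L1 c.r) = 1 := by
  intro c hc
  rw [r_one x l (by omega) c hc]
  exact hlen

/-- one block of dimension zero -/
theorem Fcb_zero (hc : ∃ c ∈ x :: l, c.q = 0) : Fcb Fm m (H.th x l) = 0 := by
  obtain ⟨c, hc, hq⟩ := hc
  obtain ⟨i, hi⟩ := List.mem_iff_getElem?.1 hc
  have hi' : i < m := by
    have := (List.getElem?_eq_some_iff.1 hi).1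
    rw [List.length_cons] at this
    omega
  have h1 := hlen' H Fm x l hr hlen hl
  unfold Fcb
  split_ifs with h
  · show ST82.S (Fm.D (m + m)) m (H.ty true x l) (H.tl true x l) = 0
    refine S_zero_of_letter (run x l) (fun n => Lm H n x l) (tl_true H x l) (fun v w => run_mono x l v w)
      (apos x l) (fun v j => run_pos x l v j) (apos_mono x l) (fun v => ?_)
      (fun v => (run_le x l v).trans hl.le) i hi' (fun v w hv hw => ?_) (fun v w hv hw => ?_)
    · have h1 := H.tl_mem true x l v
      rw [lr_two x l hr] at h1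
      exact len_self Fm _ _ h1
    · have h2 := coc_eq H Fm (fun n => (Fm.D n).A) (coc_A Fm) x l h1 v w (by rw [hv, hl]) (by rw [hw, hl]) i
        (by omega)
      rw [lr_two x l hr] at h2
      exact h2.trans (Al_zero H Fm _ (coc_A Fm) x l h1 i c hi hq v w)
    · have h2 := coc_eq H Fm (fun n => (Fm.D n).B) (coc_B Fm) x l h1 v w (by rw [hv, hl]) (by rw [hw, hl]) i
        (by omega)
      rw [lr_two x l hr] at h2
      exact h2.trans (Al_zero H Fm _ (coc_B Fm) x l h1 i c hi hq v w)
  · rfl

/-- all dimensions one -/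
theorem Fcb_one (hq : ∀ c ∈ x :: l, c.q = 1) : Fcb Fm m (H.th x l) =
    sgn m * kap m (fun i => ((x :: l).map (val H fun n => (Fm.D n).A)).getD i 0)
      (fun i => ((x :: l).map (val H fun n => (Fm.D n).B)).getD i 0) := by
  have h1 := hlen' H Fm x l hr hlen hl
  have hsum : ((x :: l).map Cb.q).sum = (x :: l).length := by
    rw [List.map_congr_left (g := fun _ => 1) hq]
    simp [Nat.add_comm]
  unfold Fcb
  rw [if_pos ⟨lr_two x l hr, (by
    show Hty.lq x l = m + m
    rw [lq_eq, hsum, List.length_cons, hl])⟩]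
  show ST82.S (Fm.D (m + m)) m (H.ty true x l) (H.tl true x l) = _
  refine S_one (run x l) (fun n => Lm H n x l) (tl_true H x l) (fun v w => run_mono x l v w) ?_ ?_ ?_ ?_ ?_ _ _ ?_ ?_
  · intro v j hj
    rw [← apos_one x l hq]
    exact run_pos x l v j hj
  · intro v j hj h
    refine run_ge x l v j (by omega) fun i hi => ?_
    rw [apos_one x l hq]
    exact h i hi
  · intro v
    have h1 := H.tl_mem true x l v
    rw [lr_two x l hr] at h1
    exact len_self Fm _ _ h1
  · exact fun v => (run_le x l v).trans hl.le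
  · intro i hi
    have := Lm_len H Fm x l h1 i (by omega)
    rw [lr_two x l hr] at this
    exact this
  · intro v w hv hw i hi
    have h2 := coc_eq H Fm (fun n => (Fm.D n).A) (coc_A Fm) x l h1 v w (by rw [hv, hl]) (by rw [hw, hl]) i
      (by omega)
    rw [lr_two x l hr] at h2
    exact h2.trans (Al_one H Fm _ (coc_A Fm) x l h1 hq i (by omega) v w)
  · intro v w hv hw i hi
    have h2 := coc_eq H Fm (fun n => (Fm.D n).B) (coc_B Fm) x l h1 v w (by rw [hv, hl]) (by rw [hw, hl]) i
      (by omega)
    rw [lr_two x l hr] at h2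
    exact h2.trans (Al_one H Fm _ (coc_B Fm) x l h1 hq i (by omega) v w)

/-- a degenerate block -/
theorem Fcb_dg (hc : ∃ c ∈ x :: l, c.Dg) (hs : ((x :: l).map Cb.q).sum + (x :: l).length = m + m) :
    Fcb Fm m (H.th x l) = 0 := by
  by_cases h0 : ∃ c ∈ x :: l, c.q = 0
  · exact Fcb_zero H Fm x l hr hlen hl h0
  push Not at h0
  have hq := q_one (x :: l) h0 (by rw [List.length_cons] at hs ⊢; omega)
  rw [Fcb_one H Fm x l hr hlen hl hq]
  obtain ⟨c, hc, k, hk, hd⟩ := hc
  have hk0 : k = 0 := by
    have := hq c hc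
    omega
  subst hk0
  have h1 := hlen' H Fm x l hr hlen hl c hc
  have hl1 : ltr c = 1 := by
    unfold ltr
    rw [← c.y_zero]
    refine (hd (fun _ => true) (fun i => if i = 0 then false else true) fun i hi => by rw [if_neg hi]).1.trans ?_
    refine c.y_dep _ _ fun i hi => ?_
    have := hq c hc
    have hi0 : i = 0 := by omega
    rw [hi0]
    rfl
  obtain ⟨i, hi⟩ := List.mem_iff_getElem?.1 hc
  have hi' : i < m := by
    have := (List.getElem?_eq_some_iff.1 hi).1
    rw [List.length_cons] at this
    omega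
  have hv : ∀ (AA : ℕ → G' → G' → P' → P' → ℚ), Coc Fm AA → ((x :: l).map (val H AA)).getD i 0 = 0 := by
    intro AA hAA
    rw [List.getD_eq_getElem?_getD, List.getElem?_map, hi]
    show val H AA c = 0
    unfold val
    rw [hl1]
    exact blk_self H Fm AA hAA c h1 1 (one_mem _)
  rw [kap_zero m _ _ i hi' (hv _ (coc_A Fm)) (hv _ (coc_B Fm)), mul_zero]

end th

/-! ### the functional on `Th1` -/

theorem Th1_nil (w : List (Cb S)) : (H.Th1 w) [] = 0 := by
  cases w with
  | nil => rfl
  | cons x l =>
    show (H.pre x l + (-1 : ℚ) ^ (x.q + 1) • Finsupp.mapDomain (fun w => H.phi1.cb x :: w) (H.Th1 l)) [] = 0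
    rw [Finsupp.add_apply, Finsupp.smul_apply, Finsupp.mapDomain_of_notMem_range _ _ (by
      rintro ⟨w, hw⟩
      exact List.cons_ne_nil _ _ hw), smul_zero, add_zero]
    unfold Hty.pre
    rw [Finsupp.finsetSum_apply]
    refine Finset.sum_eq_zero fun k _ => ?_
    exact Finsupp.single_eq_of_ne (by simp)

theorem Fls_long (w : List (Cb S')) (hw : w.length ≠ 1) : Fls Fm m w = 0 := by
  match w, hw with
  | [], _ => rfl
  | [c], h => exact absurd rfl h
  | _ :: _ :: _, _ => rfl

theorem FF_Th1 (x : Cb S) (l : List (Cb S)) : FF Fm m (H.Th1 (x :: l)) = Fcb Fm m (H.th x l) := by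
  show FF Fm m (H.pre x l + (-1 : ℚ) ^ (x.q + 1) • Finsupp.mapDomain (fun w => H.phi1.cb x :: w) (H.Th1 l)) = _
  have h1 : FF Fm m (Finsupp.mapDomain (fun w => H.phi1.cb x :: w) (H.Th1 l)) = 0 := by
    unfold FF
    rw [Finsupp.linearCombination_mapDomain, Finsupp.linearCombination_apply, Finsupp.sum]
    refine Finset.sum_eq_zero fun w hw => ?_
    have hw0 : w ≠ [] := by
      rintro rfl
      exact (Finsupp.mem_support_iff.1 hw) (Th1_nil H l)
    rw [Function.comp_apply, Fls_long Fm m, smul_zero]
    rw [List.length_cons]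
    intro h
    exact hw0 (List.length_eq_zero_iff.1 (by omega))
  rw [map_add, map_smul, h1, smul_zero, add_zero]
  unfold Hty.pre
  rw [map_sum, Finset.sum_eq_single l.length]
  · unfold FF
    rw [Finsupp.linearCombination_single, one_smul, List.take_length, List.drop_length]
    rfl
  · intro k hk hne
    unfold FF
    rw [Finsupp.linearCombination_single, one_smul]
    apply Fls_long
    rw [List.length_cons, List.length_map, List.length_drop]
    have := Finset.mem_range.1 hk
    omega
  · intro h
    exact absurd (Finset.mem_range.2 (Nat.lt_succ_self _)) h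

/-- **the residue functional on `Th y`** for a chain `y` with leading part `w0` -/
theorem FF_Th (hm : 0 < m) (hlen : (Fm.D 2).len (H.L0 1) (H.L1 1) = 1) (w0 : List (Cb S)) (h0 : w0.length = m)
    (hr0 : ∀ c ∈ w0, c.r = 1) (hq0 : ∀ c ∈ w0, c.q = 1) (y : BT S) (hy : y ∈ BTN S m (2 * m - 1))
    (hz : y - Finsupp.single w0 1 ∈
      Finsupp.supported ℚ ℚ {w : List (Cb S) | w.length < m ∨ ∃ c ∈ w, c.q = 0} ⊔ DegB S) :
    FF Fm m (H.Th y) = sgn m * kap m (fun i => (w0.map (val H fun n => (Fm.D n).A)).getD i 0)
      (fun i => (w0.map (val H fun n => (Fm.D n).B)).getD i 0) := by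
  have hsr : (w0.map Cb.r).sum = m := by
    rw [List.map_congr_left (g := fun _ => 1) hr0]
    simp [h0]
  have hsq : (w0.map Cb.q).sum = m := by
    rw [List.map_congr_left (g := fun _ => 1) hq0]
    simp [h0]
  have hw0 : Finsupp.single w0 (1 : ℚ) ∈ BTN S m (2 * m - 1) := by
    refine Finsupp.single_mem_supported ℚ 1 ⟨?_, hsr, ?_⟩
    · rintro rfl
      rw [List.length_nil] at h0
      omega
    · rw [hsq, h0]
      omega
  have h1 : FF Fm m (H.Th (y - Finsupp.single w0 1)) = 0 := by
    have hs : y - Finsupp.single w0 1 ∈ Finsupp.supported ℚ ℚ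
        ({w : List (Cb S) | (w.length < m ∨ ∃ c ∈ w, c.q = 0) ∨ ∃ c ∈ w, c.Dg}) := by
      have : Finsupp.supported ℚ ℚ {w : List (Cb S) | w.length < m ∨ ∃ c ∈ w, c.q = 0} ⊔ DegB S ≤
          Finsupp.supported ℚ ℚ ({w : List (Cb S) | (w.length < m ∨ ∃ c ∈ w, c.q = 0) ∨ ∃ c ∈ w, c.Dg}) :=
        sup_le (Finsupp.supported_mono fun w hw => Or.inl hw) (Finsupp.supported_mono fun w hw => Or.inr hw)
      exact this hz
    have hb := Submodule.sub_mem _ hy hw0
    unfold Hty.Th
    rw [Finsupp.linearCombination_apply, Finsupp.sum, map_sum]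
    refine Finset.sum_eq_zero fun w hw => ?_
    rw [map_smul]
    have hw1 := (Finsupp.mem_supported _ _).1 hs hw
    obtain ⟨hne, hwr, hwq⟩ := (Finsupp.mem_supported _ _).1 hb hw
    cases w with
    | nil => exact absurd rfl hne
    | cons x l =>
      rw [FF_Th1]
      have hr : Hty.lr x l = m := by rw [lr_eq]; exact hwr
      have hle := length_le_lr x l
      rw [hr] at hle
      have hz : Fcb Fm m (H.th x l) = 0 := by
        rcases Nat.lt_or_ge (l.length + 1) m with hlt | hge
        · exact Fcb_few H Fm x l hr hlt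
        · have hl : l.length + 1 = m := by omega
          rcases hw1 with (h | h) | h
          · rw [List.length_cons] at h
            omega
          · exact Fcb_zero H Fm x l hr hlen hl h
          · exact Fcb_dg H Fm x l hr hlen hl h (by rw [hwq]; omega)
      rw [hz, smul_zero]
  have h2 : y = (y - Finsupp.single w0 1) + Finsupp.single w0 1 := by abel
  rw [h2, map_add, map_add, h1, zero_add]
  have h3 : H.Th (Finsupp.single w0 1) = H.Th1 w0 := by
    unfold Hty.Th
    rw [Finsupp.linearCombination_single, one_smul]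
  rw [h3]
  cases w0 with
  | nil => simp at h0; omega
  | cons x l =>
    rw [FF_Th1]
    exact Fcb_one H Fm x l (by rw [lr_eq]; exact hsr) hlen (by rw [List.length_cons] at h0; exact h0) hq0

end ST31
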