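import Pool.Agent.LibSt31.E2
import Pool.Agent.LibSt16.Cz

/-!
LibSt31/E3: `FF (H.Th y)` depends only on the image of `y` in the abelian system (MP_8b67e9, section 5).
-/

set_option autoImplicit false

noncomputable section

namespace ST31

open St16 ST82

/-- value of a list of cubes of the abelian system -/
def Phi (m : ℕ) (a' b' : TT → ℚ) (w : List (Cb sysA)) : ℚ :=
  open Classical in
  if w.length = m ∧ ∀ c ∈ w, c.r = 1 ∧ c.q = 1 then
    sgn m * kap m (fun i => (w.map fun c => a' (ltr c)).getD i 0) (fun i => (w.map fun c => b' (ltr c)).getD i 0)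
  else 0

theorem ltr_dg {G P : Type} [Group G] [Preorder P] [MulAction G P] {S : Sys G P} (c : Cb S) (hq : c.q = 1)
    (hd : c.Dg) : ltr c = 1 := by
  obtain ⟨k, hk, hd⟩ := hd
  have hk0 : k = 0 := by omega
  subst hk0
  unfold ltr
  rw [← c.y_zero]
  refine (hd (fun _ => true) (fun i => if i = 0 then false else true) fun i hi => by rw [if_neg hi]).1.trans ?_
  refine c.y_dep _ _ fun i hi => ?_
  have hi0 : i = 0 := by omega
  rw [hi0]
  rfl

theorem Phi_dg (m : ℕ) (a' b' : TT → ℚ) (ha : a' 1 = 0) (hb : b' 1 = 0) (w : List (Cb sysA))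
    (hc : ∃ c ∈ w, c.Dg) : Phi m a' b' w = 0 := by
  unfold Phi
  split_ifs with h
  · obtain ⟨c, hc, hd⟩ := hc
    obtain ⟨i, hi⟩ := List.mem_iff_getElem?.1 hc
    have hi' : i < m := by
      have := (List.getElem?_eq_some_iff.1 hi).1
      omega
    have hl := ltr_dg c (h.2 c hc).2 hd
    rw [kap_zero m _ _ i hi', mul_zero]
    · rw [List.getD_eq_getElem?_getD, List.getElem?_map, hi]
      show a' (ltr c) = 0
      rw [hl, ha]
    · rw [List.getD_eq_getElem?_getD, List.getElem?_map, hi]
      show b' (ltr c) = 0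
      rw [hl, hb]
  · rfl

/-- the linear extension -/
def PhiL (m : ℕ) (a' b' : TT → ℚ) : BT sysA →ₗ[ℚ] ℚ := Finsupp.linearCombination ℚ (Phi m a' b')

theorem PhiL_zero {m : ℕ} {a' b' : TT → ℚ} {X : Set (List (Cb sysA))} (h : ∀ w ∈ X, Phi m a' b' w = 0)
    (z : BT sysA) (hz : z ∈ Finsupp.supported ℚ ℚ X) : PhiL m a' b' z = 0 := by
  unfold PhiL
  rw [Finsupp.linearCombination_apply, Finsupp.sum]
  refine Finset.sum_eq_zero fun w hw => ?_
  rw [h w ((Finsupp.mem_supported _ _).1 hz hw), smul_zero]

variable {G P G' P' : Type} [Group G] [Preorder P] [MulAction G P] [Group G'] [Preorder P'] [MulAction G' P']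
  {S : Sys G P} {S' : Sys G' P'}

/-- the functional on one list -/
theorem FF_Phi (H : Hty S S' 2) (Fm : Fam S') (hlen : (Fm.D 2).len (H.L0 1) (H.L1 1) = 1) (f : SHom S sysA 1)
    (a' b' : TT → ℚ) 
    (hva : ∀ c : Cb S, c.r = 1 → c.q = 1 → val H (fun n => (Fm.D n).A) c = a' (ltr (f.cb c)))
    (hvb : ∀ c : Cb S, c.r = 1 → c.q = 1 → val H (fun n => (Fm.D n).B) c = b' (ltr (f.cb c)))
    (m : ℕ) (w : List (Cb S)) (hne : w ≠ []) (hr : (w.map Cb.r).sum = m)
    (hs : (w.map Cb.q).sum + w.length = m + m) :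
    FF Fm m (H.Th1 w) = Phi m a' b' (w.map f.cb) := by
  cases w with
  | nil => exact absurd rfl hne
  | cons x l =>
    rw [FF_Th1]
    have hr' : Hty.lr x l = m := by rw [lr_eq]; exact hr
    have hle := length_le_lr x l
    rw [hr'] at hle
    unfold Phi
    rcases Nat.lt_or_ge (l.length + 1) m with hlt | hge
    · rw [Fcb_few H Fm x l hr' hlt, if_neg]
      rintro ⟨h, _⟩
      rw [List.length_map, List.length_cons] at h
      omega
    · have hl : l.length + 1 = m := by omega
      by_cases h0 : ∃ c ∈ x :: l, c.q = 0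
      · rw [Fcb_zero H Fm x l hr' hlen hl h0, if_neg]
        rintro ⟨_, h⟩
        obtain ⟨c, hc, hq⟩ := h0
        have h1 := (h (f.cb c) (List.mem_map_of_mem hc)).2
        have h2 : (f.cb c).q = c.q := rfl
        omega
      · push Not at h0
        have hr1 := r_one x l (by omega)
        have hq := q_one (x :: l) h0 (by rw [List.length_cons] at hs ⊢; omega)
        rw [Fcb_one H Fm x l hr' hlen hl hq, if_pos]
        · congr 1
          have e : ∀ (v : Cb S → ℚ) (a' : TT → ℚ), (∀ c : Cb S, c.r = 1 → c.q = 1 → v c = a' (ltr (f.cb c))) →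
              (x :: l).map v = ((x :: l).map f.cb).map fun c => a' (ltr c) := by
            intro v a' hv
            rw [List.map_map]
            exact List.map_congr_left fun c hc => hv c (hr1 c hc) (hq c hc)
          rw [e _ _ hva, e _ _ hvb]
        · refine ⟨by rw [List.length_map, List.length_cons, hl], fun c hc => ?_⟩
          obtain ⟨c', hc', rfl⟩ := List.mem_map.1 hc
          refine ⟨?_, hq c' hc'⟩
          show 1 * c'.r = 1
          rw [hr1 c' hc']

/-- **`FF (H.Th y)` from the image of `y` in the abelian system** -/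
theorem FF_Th_Phi (H : Hty S S' 2) (Fm : Fam S') (hlen : (Fm.D 2).len (H.L0 1) (H.L1 1) = 1)
    (f : SHom S sysA 1) (a' b' : TT → ℚ) (ha : a' 1 = 0) (hb : b' 1 = 0)
    (hva : ∀ c : Cb S, c.r = 1 → c.q = 1 → val H (fun n => (Fm.D n).A) c = a' (ltr (f.cb c)))
    (hvb : ∀ c : Cb S, c.r = 1 → c.q = 1 → val H (fun n => (Fm.D n).B) c = b' (ltr (f.cb c)))
    (m : ℕ) (hm : 0 < m) (y : BT S) (hy : y ∈ BTN S m (2 * m - 1)) (z : BT sysA) (hz : f.bt y - z ∈ DegB sysA) :
    FF Fm m (H.Th y) = PhiL m a' b' z := by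
  have h1 : PhiL m a' b' (f.bt y - z) = 0 := PhiL_zero (fun w hw => Phi_dg m a' b' ha hb w hw) _ hz
  rw [map_sub, sub_eq_zero] at h1
  rw [← h1]
  unfold PhiL SHom.bt Hty.Th
  rw [Finsupp.lmapDomain_apply, Finsupp.linearCombination_mapDomain, Finsupp.linearCombination_apply,
    Finsupp.linearCombination_apply, Finsupp.sum, Finsupp.sum, map_sum]
  refine Finset.sum_congr rfl fun w hw => ?_
  rw [map_smul]
  obtain ⟨hne, hwr, hwq⟩ := (Finsupp.mem_supported _ _).1 hy hw
  rw [FF_Phi H Fm hlen f a' b' hva hvb m w hne hwr (by omega)]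
  rfl

/-- the value of the class `z` -/
theorem PhiL_zcl (m : ℕ) (hm : 0 < m) (a' b' : TT → ℚ) (a b : TT) :
    PhiL m a' b' (zcl a b m) = sgn m * kap m (fun i => if i = 0 then a' a else a' b)
      (fun i => if i = 0 then b' a else b' b) := by
  have h1 := PhiL_zero (m := m) (a' := a') (b' := b') (X := {w | ∃ c ∈ w, c.q = 0}) (fun w hw => ?_) _ (z_lead a b m)
  · rw [map_sub, sub_eq_zero] at h1
    rw [h1]
    unfold PhiL
    rw [Finsupp.linearCombination_single, one_smul]
    unfold Phi
    rw [if_pos]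
    · congr 1
      have hl : ∀ t : TT, ltr (lc1 t) = t := by
        intro t
        show wval [t] (fun _ => true) = t
        simp [wval]
      have e : ∀ (a' : TT → ℚ) (i : ℕ), i < m →
          ((lc1 a :: List.replicate (m - 1) (lc1 b)).map fun c => a' (ltr c)).getD i 0 =
            if i = 0 then a' a else a' b := by
        intro a' i hi
        cases i with
        | zero =>
          rw [if_pos rfl]
          show a' (ltr (lc1 a)) = a' a
          rw [hl]
        | succ i =>
          rw [if_neg (Nat.succ_ne_zero i), List.map_cons, List.map_replicate, List.getD_cons_succ,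
            List.getD_replicate _ (by omega), hl]
      exact kap_congr m _ _ _ _ (fun i hi => e a' i hi) (fun i hi => e b' i hi)
    · refine ⟨?_, ?_⟩
      · rw [List.length_cons, List.length_replicate]
        omega
      · intro c hc
        rcases List.mem_cons.1 hc with rfl | hc
        · exact ⟨rfl, rfl⟩
        · rw [List.eq_of_mem_replicate hc]
          exact ⟨rfl, rfl⟩
  · obtain ⟨c, hc, hq⟩ := hw
    unfold Phi
    rw [if_neg]
    rintro ⟨_, h⟩
    have := (h c hc).2
    omega

end ST31
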