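import Pool.Agent.LibSt31.E3
import Pool.Agent.LibSt16.HtL
import Pool.Agent.LibSt16B3.AlBe

/-!
LibSt31/E4: the values of the rank one blocks in the steps `Hstep` (MP_8b67e9, section 5).
-/

set_option autoImplicit false
set_option linter.unusedSectionVars false

noncomputable section

namespace ST31

open St16 St16B3 IsLocalRing

/-! ### the realification of a unitary element of rank one -/

section re

private theorem E4_single (B : Type) [CommRing B] [Algebra ℚ B] (k : ℕ) (z : EE) :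
    reV B (Finsupp.single k z) =
      Finsupp.single (2 * k) (algebraMap ℚ B z.re) + Finsupp.single (2 * k + 1) (algebraMap ℚ B z.im) := by
  unfold reV
  rw [Finsupp.sum_single_index]
  rw [QuadraticAlgebra.re_zero, QuadraticAlgebra.im_zero, map_zero, Finsupp.single_zero,
    Finsupp.single_zero, add_zero]

theorem Un_one_ee (g : Au EE) (hg : g ∈ Un 1) : g (ee 0) = Finsupp.single 0 ((detT g : TT) : EE) := by
  have h1 : ((detT g : TT) : EE) = (g (ee 0)) 0 := by
    rw [detT_eq 1 g hg, Matrix.det_fin_one]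
    rfl
  ext1 i
  cases i with
  | zero => rw [Finsupp.single_eq_same, h1]
  | succ i =>
    rw [Finsupp.single_eq_of_ne (by omega)]
    refine IsU_low 1 g hg (ee 0) (fun j hj => ?_) (i + 1) (by omega)
    unfold ee
    exact Finsupp.single_eq_of_ne (by omega)

variable {L : Type} [Field L] [Algebra ℚ L]

/-- `x_0 + I x_1` is multiplied by the determinant -/
theorem re_pl (I : L) (hI : I ^ 2 = -1) (g : Au EE) (hg : g ∈ Un 1) (x : Vc L) (hx : ∀ i, 2 ≤ i → x i = 0) :
    (reA L g x) (2 * 0) + I * (reA L g x) (2 * 0 + 1) =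
      (algebraMap ℚ L ((detT g : TT) : EE).re + I * algebraMap ℚ L ((detT g : TT) : EE).im) *
        (x (2 * 0) + I * x (2 * 0 + 1)) := by
  set z : EE := ((detT g : TT) : EE) with hz
  have h0 : reA L g (ee 0) = Finsupp.single 0 (algebraMap ℚ L z.re) + Finsupp.single 1 (algebraMap ℚ L z.im) := by
    have h1 := reA_reV L g (ee 0)
    rw [reV_ee, Un_one_ee g hg, E4_single] at h1
    exact h1
  have h1 : reA L g (ee 1) = Finsupp.single 0 (-algebraMap ℚ L z.im) + Finsupp.single 1 (algebraMap ℚ L z.re) := by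
    have h1 := reA_reV L g ((⟨0, 1⟩ : EE) • ee 0)
    rw [reV_iee, map_smul, Un_one_ee g hg, Finsupp.smul_single, E4_single] at h1
    have hre : ((⟨0, 1⟩ : EE) • z).re = -z.im := by
      rw [smul_eq_mul, QuadraticAlgebra.re_mul]
      show 0 * _ + (-1) * 1 * _ = _
      ring
    have him : ((⟨0, 1⟩ : EE) • z).im = z.re := by
      rw [smul_eq_mul, QuadraticAlgebra.im_mul]
      show 0 * _ + 1 * _ + 0 * 1 * _ = _
      ring
    rw [← hz, hre, him, map_neg] at h1
    exact h1
  have hx' : x = x 0 • ee 0 + x 1 • ee 1 := by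
    unfold ee
    ext1 i
    rw [Finsupp.add_apply, Finsupp.smul_apply, Finsupp.smul_apply, smul_eq_mul, smul_eq_mul]
    match i with
    | 0 => simp
    | 1 => simp
    | i + 2 =>
      rw [hx (i + 2) (by omega), Finsupp.single_eq_of_ne (by omega), Finsupp.single_eq_of_ne (by omega)]
      ring
  have h2 : reA L g x = x 0 • reA L g (ee 0) + x 1 • reA L g (ee 1) := by
    conv_lhs => rw [hx']
    rw [map_add, map_smul, map_smul]
  rw [h2, h0, h1]
  simp only [Finsupp.add_apply, Finsupp.smul_apply, smul_eq_mul, Nat.mul_zero, Nat.zero_add, Finsupp.single_eq_same]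
  rw [Finsupp.single_eq_of_ne (by omega : (0 : ℕ) ≠ 1), Finsupp.single_eq_of_ne (by omega : (0 : ℕ) ≠ 1),
    Finsupp.single_eq_of_ne (by omega : (1 : ℕ) ≠ 0), Finsupp.single_eq_of_ne (by omega : (1 : ℕ) ≠ 0)]
  linear_combination (-(x 1) * algebraMap ℚ L z.im) * hI

end re

/-! ### the steps -/

section lat

variable {A L : Type} [CommRing A] [IsDomain A] [IsDiscreteValuationRing A] [Field L] [CharZero L] [Algebra A L]
  [IsFractionRing A L]

theorem Lam_swap (ϖ : A) (I : L) (a b : ℤ) (c : ℕ) : Lam ϖ I a b c = Lam ϖ (-I) b a c := by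
  ext x
  have e : ∀ k, x (2 * k) + -I * x (2 * k + 1) = x (2 * k) - I * x (2 * k + 1) := fun k => by ring
  have e' : ∀ k, x (2 * k) - -I * x (2 * k + 1) = x (2 * k) + I * x (2 * k + 1) := fun k => by ring
  constructor
  · rintro ⟨h1, h2⟩
    refine ⟨h1, fun k hk => ?_⟩
    obtain ⟨h3, h4⟩ := h2 k hk
    rw [e, e']
    exact ⟨h4, h3⟩
  · rintro ⟨h1, h2⟩
    refine ⟨h1, fun k hk => ?_⟩
    obtain ⟨h3, h4⟩ := h2 k hk
    rw [e] at h3
    rw [e'] at h4
    exact ⟨h4, h3⟩

/-- a vector of `L^2` with given coordinates `x_0 + I x_1`, `x_0 - I x_1` -/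
def vv (I p : L) : Vc L := Finsupp.single 0 (p / 2) + Finsupp.single 1 (p / (2 * I))

theorem vv_zero (I p : L) : vv I p 0 = p / 2 := by simp [vv]

theorem vv_one (I p : L) : vv I p 1 = p / (2 * I) := by simp [vv]

theorem vv_ge (I p : L) (i : ℕ) (hi : 2 ≤ i) : vv I p i = 0 := by
  unfold vv
  rw [Finsupp.add_apply, Finsupp.single_eq_of_ne (by omega), Finsupp.single_eq_of_ne (by omega), add_zero]

theorem I_ne (I : L) (hI : I ^ 2 = -1) : I ≠ 0 := by
  rintro rfl
  norm_num at hI

theorem vv_pl (I p : L) (hI : I ^ 2 = -1) : vv I p (2 * 0) + I * vv I p (2 * 0 + 1) = p := by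
  have h0 := I_ne I hI
  show vv I p 0 + I * vv I p 1 = p
  rw [vv_zero, vv_one]
  field_simp
  ring

theorem vv_mi (I p : L) (hI : I ^ 2 = -1) : vv I p (2 * 0) - I * vv I p (2 * 0 + 1) = 0 := by
  have h0 := I_ne I hI
  show vv I p 0 - I * vv I p 1 = 0
  rw [vv_zero, vv_one]
  field_simp
  ring

variable {ϖ : A} (hϖ : Irreducible ϖ) (al be : (ResidueField A)ˣ →* Multiplicative ℚ)

theorem len_up (I : L) (hI : I ^ 2 = -1) (a b : ℤ) (hx : (Lam ϖ I (a + 1) b 1 : Lt A L) ∈ Ln ϖ 2)
    (hy : (Lam ϖ I a b 1 : Lt A L) ∈ Ln ϖ 2) (hle : (Lam ϖ I (a + 1) b 1 : Lt A L) ≤ Lam ϖ I a b 1) :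
    (latD L ϖ hϖ al be 2).len (Lam ϖ I (a + 1) b 1 : Lt A L) (Lam ϖ I a b 1) = 1 := by
  have hϖ0 : algebraMap A L ϖ ≠ 0 := by
    intro h
    exact hϖ.ne_zero (IsFractionRing.injective A L (h.trans (map_zero _).symm))
  have hz : algebraMap A L ϖ ^ (a + 1) = algebraMap A L ϖ ^ a * algebraMap A L ϖ := zpow_add_one₀ hϖ0 a
  have hza : algebraMap A L ϖ ^ a ≠ 0 := zpow_ne_zero _ hϖ0
  refine len_one_of hϖ al be 2 _ _ hx hy hle (vv I (algebraMap A L ϖ ^ a)) ?_ ?_ ?_ ?_
  · refine ⟨fun i hi => vv_ge _ _ i (by omega), fun k hk => ?_⟩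
    have hk0 : k = 0 := by omega
    subst hk0
    exact ⟨⟨1, by rw [vv_pl _ _ hI, map_one, one_mul]⟩, 0, by rw [vv_mi _ _ hI, map_zero, zero_mul]⟩
  · rintro ⟨_, h2⟩
    obtain ⟨⟨u, hu⟩, _⟩ := h2 0 Nat.zero_lt_one
    rw [vv_pl _ _ hI, hz] at hu
    have h3 : algebraMap A L (u * ϖ) = algebraMap A L 1 := by
      rw [map_mul, map_one]
      apply mul_left_cancel₀ hza
      rw [mul_one]
      linear_combination -hu
    have h4 := IsFractionRing.injective A L h3
    exact hϖ.not_isUnit (IsUnit.of_mul_eq_one u (by rw [mul_comm]; exact h4))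
  · refine ⟨fun i hi => ?_, fun k hk => ?_⟩
    · rw [Finsupp.smul_apply, vv_ge _ _ i (by omega), smul_zero]
    · have hk0 : k = 0 := by omega
      subst hk0
      refine ⟨⟨1, ?_⟩, 0, ?_⟩
      · rw [Finsupp.smul_apply, Finsupp.smul_apply, Algebra.smul_def, Algebra.smul_def, map_one, one_mul, hz]
        linear_combination algebraMap A L ϖ * vv_pl I (algebraMap A L ϖ ^ a) hI
      · rw [Finsupp.smul_apply, Finsupp.smul_apply, Algebra.smul_def, Algebra.smul_def, map_zero, zero_mul]
        linear_combination algebraMap A L ϖ * vv_mi I (algebraMap A L ϖ ^ a) hI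
  · rintro w ⟨hw1, hw2⟩
    obtain ⟨⟨u, hu⟩, v, hv⟩ := hw2 0 Nat.zero_lt_one
    refine ⟨u, fun i hi => ?_, fun k hk => ?_⟩
    · rw [Finsupp.sub_apply, Finsupp.smul_apply, hw1 i hi, vv_ge _ _ i (by omega), smul_zero, sub_zero]
    · have hk0 : k = 0 := by omega
      subst hk0
      refine ⟨⟨0, ?_⟩, v, ?_⟩
      · rw [Finsupp.sub_apply, Finsupp.sub_apply, Finsupp.smul_apply, Finsupp.smul_apply, Algebra.smul_def,
          Algebra.smul_def, map_zero, zero_mul]
        linear_combination hu - algebraMap A L u * vv_pl I (algebraMap A L ϖ ^ a) hI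
      · rw [Finsupp.sub_apply, Finsupp.sub_apply, Finsupp.smul_apply, Finsupp.smul_apply, Algebra.smul_def,
          Algebra.smul_def]
        linear_combination hv - algebraMap A L u * vv_mi I (algebraMap A L ϖ ^ a) hI

theorem act_up [Algebra ℚ L] (I : L) (hI : I ^ 2 = -1) (a b : ℤ) (g : Au EE) (hg : g ∈ Un 1) (u ub : A)
    (hu : algebraMap A L u = algebraMap ℚ L ((detT g : TT) : EE).re + I * algebraMap ℚ L ((detT g : TT) : EE).im)
    (hub : algebraMap A L ub = algebraMap ℚ L ((detT g : TT) : EE).re - I * algebraMap ℚ L ((detT g : TT) : EE).im)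
    (x : Vc L) (hx : x ∈ Lam ϖ I a b 1) : reA L g x - u • x ∈ Lam ϖ I (a + 1) b 1 := by
  obtain ⟨h1, h2⟩ := hx
  obtain ⟨_, v, hv⟩ := h2 0 Nat.zero_lt_one
  have hlow := On_low (2 * 1) (reA L g) ((reH L).G_mem 1 g hg) x h1
  refine ⟨fun i hi => ?_, fun k hk => ?_⟩
  · rw [Finsupp.sub_apply, Finsupp.smul_apply, hlow i hi, h1 i hi, smul_zero, sub_zero]
  · have hk0 : k = 0 := by omega
    subst hk0
    have hp := re_pl I hI g hg x h1
    have hm := re_pl (-I) (by rw [neg_sq, hI]) g hg x h1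
    refine ⟨⟨0, ?_⟩, (ub - u) * v, ?_⟩
    · rw [Finsupp.sub_apply, Finsupp.sub_apply, Finsupp.smul_apply, Finsupp.smul_apply, Algebra.smul_def,
          Algebra.smul_def, map_zero, zero_mul, hu]
      linear_combination hp
    · have e : algebraMap A L ((ub - u) * v) = (algebraMap A L ub - algebraMap A L u) * algebraMap A L v := by
        rw [map_mul, map_sub]
      rw [Finsupp.sub_apply, Finsupp.sub_apply, Finsupp.smul_apply, Finsupp.smul_apply, Algebra.smul_def,
          Algebra.smul_def, e, mul_assoc, ← hv, hub, hu]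
      linear_combination hm

variable [Algebra ℚ L] (P : Place L A)

theorem un_pl (t : TT) : algebraMap A L ((un P t : Aˣ) : A) =
    algebraMap ℚ L (t : EE).re + P.I * algebraMap ℚ L (t : EE).im := by
  rw [un_spec, eq_ratCast, eq_ratCast]
  show _ = _ + algebraMap A L P.i * _
  ring

theorem un_mi (t : TT) : algebraMap A L ((un P t⁻¹ : Aˣ) : A) =
    algebraMap ℚ L (t : EE).re - P.I * algebraMap ℚ L (t : EE).im := by
  have h : ((t⁻¹ : TT) : EE) = star (t : EE) := by
    rw [← Unitary.star_eq_inv, Unitary.coe_star]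
  rw [un_pl, h, QuadraticAlgebra.re_star, QuadraticAlgebra.im_star, map_neg, zero_mul, add_zero]
  ring

/-- evaluation of one block -/
theorem val_eval (al be : (ResidueField A)ˣ →* Multiplicative ℚ) (H : Hty sysU (sysL L P.π P.irr) 2)
    (hfG : H.fG = reA L) (c : Cb sysU) (hr : c.r = 1) (u : Aˣ)
    (hlen : (latD L P.π P.irr al be 2).len (H.L0 1) (H.L1 1) = 1)
    (hc : ∀ v ∈ (H.L1 1 : Submodule A (Vc L)), reA L (ltr c) v - (u : A) • v ∈ (H.L0 1 : Submodule A (Vc L))) :
    val H (fun n => ((latFam L P.π P.irr al be).D n).A) c =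
        va al (Units.map (residue A : A →* ResidueField A) u) ∧
      val H (fun n => ((latFam L P.π P.irr al be).D n).B) c =
        va be (Units.map (residue A : A →* ResidueField A) u) := by
  have hg : ltr c ∈ sysU.Gn 1 := by
    have := c.y_mem (fun _ => true)
    rwa [hr] at this
  have hw : H.tau 1 * H.fG (ltr c) = H.fG (ltr c) * H.tau 1 := (H.tau_comm 1 _ hg).symm
  rw [hfG] at hw
  have h0 := H.L0_st 1 _ hg
  have h1 := H.L1_st 1 _ hg
  rw [hfG] at h0 h1
  unfold val blk
  rw [hr, H.G_one, one_mul, hfG, ← hw]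
  exact ⟨latD_A_eval P.irr al be 2 (H.tau 1) (reA L (ltr c)) (H.L0 1) (H.L1 1) (H.L0_mem 1) (H.L1_mem 1)
      (H.L_le 1) hlen hw h0 h1 u hc,
    latD_B_eval P.irr al be 2 (H.tau 1) (reA L (ltr c)) (H.L0 1) (H.L1 1) (H.L0_mem 1) (H.L1_mem 1)
      (H.L_le 1) hlen hw h0 h1 u hc⟩

/-- steps in the direction `x_0 + I x_1` -/
theorem len_step_up (al be : (ResidueField A)ˣ →* Multiplicative ℚ) (j : ℕ) (r : Bool) :
    (latD L P.π P.irr al be 2).len ((Hstep P j true r).L0 1) ((Hstep P j true r).L1 1) = 1 := by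
  have h := len_up P.irr al be P.I P.I_sq (-(j : ℤ) - 1) ((j : ℤ) + 1)
  rw [show -(j : ℤ) - 1 + 1 = -(j : ℤ) by ring] at h
  exact h ((Hstep P j true r).L0_mem 1) ((Hstep P j true r).L1_mem 1) ((Hstep P j true r).L_le 1)

/-- steps in the direction `x_0 - I x_1` -/
theorem len_step_down (al be : (ResidueField A)ˣ →* Multiplicative ℚ) (j : ℕ) (r : Bool) :
    (latD L P.π P.irr al be 2).len ((Hstep P j false r).L0 1) ((Hstep P j false r).L1 1) = 1 := by
  have h := len_up P.irr al be (-P.I) (by rw [neg_sq, P.I_sq]) (j : ℤ) (-(j : ℤ))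
  rw [← Lam_swap, ← Lam_swap] at h
  exact h ((Hstep P j false r).L0_mem 1) ((Hstep P j false r).L1_mem 1) ((Hstep P j false r).L_le 1)

theorem val_up (al be : (ResidueField A)ˣ →* Multiplicative ℚ) (j : ℕ) (r : Bool) (c : Cb sysU) (hr : c.r = 1) :
    val (Hstep P j true r) (fun n => ((latFam L P.π P.irr al be).D n).A) c = va al (uk P (ltr (detH.cb c))) ∧
      val (Hstep P j true r) (fun n => ((latFam L P.π P.irr al be).D n).B) c = va be (uk P (ltr (detH.cb c))) := by
  have hg : ltr c ∈ Un 1 := by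
    have := c.y_mem (fun _ => true)
    rwa [hr] at this
  refine val_eval P al be (Hstep P j true r) rfl c hr (un P (detT (ltr c))) (len_step_up P al be j r) ?_
  intro v hv
  have h := act_up P.I P.I_sq (-(j : ℤ) - 1) ((j : ℤ) + 1) (ϖ := P.π) (ltr c) hg (un P (detT (ltr c)) : A)
    (un P (detT (ltr c))⁻¹ : A) (un_pl P _) (un_mi P _) v hv
  rw [show -(j : ℤ) - 1 + 1 = -(j : ℤ) by ring] at h
  exact h

theorem val_down (al be : (ResidueField A)ˣ →* Multiplicative ℚ) (j : ℕ) (r : Bool) (c : Cb sysU) (hr : c.r = 1) :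
    val (Hstep P j false r) (fun n => ((latFam L P.π P.irr al be).D n).A) c = -va al (uk P (ltr (detH.cb c))) ∧
      val (Hstep P j false r) (fun n => ((latFam L P.π P.irr al be).D n).B) c = -va be (uk P (ltr (detH.cb c))) := by
  have hg : ltr c ∈ Un 1 := by
    have := c.y_mem (fun _ => true)
    rwa [hr] at this
  have hneg : ∀ (al : (ResidueField A)ˣ →* Multiplicative ℚ) (t : TT), va al (uk P t⁻¹) = -va al (uk P t) := by
    intro al t
    have h := va_mul al (uk P t) (uk P t⁻¹)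
    rw [← map_mul, mul_inv_cancel, map_one, va_one] at h
    linarith
  have h := val_eval P al be (Hstep P j false r) rfl c hr (un P (detT (ltr c))⁻¹) (len_step_down P al be j r) ?_
  · have e := h.1
    have e' := h.2
    rw [← uk_apply] at e e'
    exact ⟨e.trans (hneg al _), e'.trans (hneg be _)⟩
  intro v hv
  have hv' : v ∈ (Lam P.π (-P.I) (j : ℤ) (-(j : ℤ)) 1 : Submodule A (Vc L)) := by
    rw [← Lam_swap]
    exact hv
  have h := act_up (-P.I) (by rw [neg_sq, P.I_sq]) (j : ℤ) (-(j : ℤ)) (ϖ := P.π) (ltr c) hg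
    (un P (detT (ltr c))⁻¹ : A) (un P (detT (ltr c)) : A) (by rw [un_mi]; ring) (by rw [un_pl]; ring) v hv'
  rw [← Lam_swap] at h
  exact h

/-! ### the evaluation -/

/-- **the residue functional on the lifted chain is not zero** -/
theorem FF_Xh (m : ℕ) (hm : Odd m) (a b : TT) (al be : (ResidueField A)ˣ →* Multiplicative ℚ)
    (haa : va al (uk P a) = 1) (hab : va al (uk P b) = 0) (hba : va be (uk P a) = 0) (hbb : va be (uk P b) = 1)
    (y : BT sysU) (hy : y ∈ BTN sysU m (2 * m - 1)) (hz : detH.bt y - zcl a b m ∈ DegB sysA) :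
    FF (latFam L P.π P.irr al be) m (Xh P y) = 2 * P.e * sgn m := by
  have hm0 : 0 < m := hm.pos
  have hK : ST82.kap m (fun i => if i = 0 then (1 : ℚ) else 0) (fun i => if i = 0 then (0 : ℚ) else 1) = 1 := by
    rw [kap_word m hm0 _ _ (fun _ _ => rfl) (fun _ _ => rfl)]
    obtain ⟨k, hk⟩ := hm
    rw [hk, Nat.add_sub_cancel, pow_mul]
    norm_num
  have hup : ∀ (j : ℕ) (r : Bool), FF (latFam L P.π P.irr al be) m ((Hstep P j true r).Th y) = sgn m := by
    intro j r
    rw [FF_Th_Phi (Hstep P j true r) (latFam L P.π P.irr al be) (len_step_up P al be j r) detH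
      (fun t => va al (uk P t)) (fun t => va be (uk P t)) (by show va al (uk P 1) = 0; rw [map_one, va_one])
      (by show va be (uk P 1) = 0; rw [map_one, va_one])
      (fun c hr _ => (val_up P al be j r c hr).1) (fun c hr _ => (val_up P al be j r c hr).2) m hm0 y hy _ hz,
      PhiL_zcl m hm0]
    simp only [haa, hab, hba, hbb]
    rw [hK, mul_one]
  have hdown : ∀ (j : ℕ) (r : Bool), FF (latFam L P.π P.irr al be) m ((Hstep P j false r).Th y) = -sgn m := by
    intro j r
    rw [FF_Th_Phi (Hstep P j false r) (latFam L P.π P.irr al be) (len_step_down P al be j r) detH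
      (fun t => -va al (uk P t)) (fun t => -va be (uk P t)) (by show -va al (uk P 1) = 0; rw [map_one, va_one, neg_zero])
      (by show -va be (uk P 1) = 0; rw [map_one, va_one, neg_zero])
      (fun c hr _ => (val_down P al be j r c hr).1) (fun c hr _ => (val_down P al be j r c hr).2) m hm0 y hy _ hz,
      PhiL_zcl m hm0]
    simp only [haa, hab, hba, hbb]
    have e : (fun i : ℕ => if i = 0 then -(1 : ℚ) else -0) = fun i => -(if i = 0 then (1 : ℚ) else 0) := by
      funext i
      split_ifs <;> rfl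
    have e' : (fun i : ℕ => if i = 0 then -(0 : ℚ) else -1) = fun i => -(if i = 0 then (0 : ℚ) else 1) := by
      funext i
      split_ifs <;> rfl
    rw [e, e', kap_neg, hK, hm.neg_one_pow]
    ring
  unfold Xh
  rw [map_sum]
  rw [Finset.sum_congr rfl fun j _ => by rw [map_sub, hup, hdown]]
  rw [Finset.sum_const, Finset.card_range, nsmul_eq_mul]
  ring

theorem FF_Xh_ne (m : ℕ) (hm : Odd m) (a b : TT) (al be : (ResidueField A)ˣ →* Multiplicative ℚ)
    (haa : va al (uk P a) = 1) (hab : va al (uk P b) = 0) (hba : va be (uk P a) = 0) (hbb : va be (uk P b) = 1)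
    (y : BT sysU) (hy : y ∈ BTN sysU m (2 * m - 1)) (hz : detH.bt y - zcl a b m ∈ DegB sysA) :
    FF (latFam L P.π P.irr al be) m (Xh P y) ≠ 0 := by
  rw [FF_Xh P m hm a b al be haa hab hba hbb y hy hz]
  have h1 : (P.e : ℚ) ≠ 0 := by
    have := P.pos
    exact_mod_cast (by omega : P.e ≠ 0)
  exact mul_ne_zero (mul_ne_zero two_ne_zero h1) (sgn_ne m)

end lat

end ST31
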